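import Pool.Agent.H567R3.ZG.Gamma

set_option autoImplicit false
set_option linter.deprecated false

namespace Pool.Agent.H567R3.ZG

open SimpleGraph Pool.Agent.Helper96.TwoFactor

variable {V : Type} {m k : ℕ} {H : SimpleGraph V} {t : V → ℕ} {fr ex : (Σ v, Fin (t v)) → Prop}

open Classical in
/-- number of flagged half edges at `v` -/
noncomputable def fx (t : V → ℕ) (fr : (Σ v, Fin (t v)) → Prop) (v : V) : ℕ :=
  ((Finset.univ : Finset (Fin (t v))).filter (fun i => fr ⟨v, i⟩)).card

open Classical in
/-- the weight of a vertex of the gadget graph -/
noncomputable def om (m k : ℕ) (fr ex : (Σ v, Fin (t v)) → Prop) (S T : Set V) : GW m H t → ℕ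
  | .inl (.inl d) => (if d.fst ∈ T then m else 0) + (if d.snd ∈ S then k else 0)
  | .inl (.inr q) => if ex q ∧ q.1 ∈ T then m + k else 0
  | .inr c => if c.1 ∈ S then m + k else if c.2.val = 0 then (m + k - 1) * fx t fr c.1 else 0

section L1

variable {U : Set (GW m H t)} {S T : Set V} {Z : Set (GW m H t)}

/-- a walk from `D` to its complement crosses the boundary -/
lemma cross {K : SimpleGraph V} {D : Set V} {u v : V} (p : K.Walk u v) (hu : u ∈ D) (hv : v ∉ D) :
    ∃ a b, K.Adj a b ∧ a ∈ D ∧ b ∉ D := by
  induction p with
  | nil => exact absurd hu hv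
  | @cons a b c h p ih =>
    by_cases hb : b ∈ D
    · exact ih hb hv
    · exact ⟨a, b, h, hu, hb⟩

/-- everything at the vertices of `D` -/
def YD (m : ℕ) (H : SimpleGraph V) (t : V → ℕ) (D : Set V) : Set (GW m H t) :=
  {x | match x with
      | .inl (.inl d) => d.fst ∈ D
      | .inl (.inr q) => q.1 ∈ D
      | .inr c => c.1 ∈ D}

lemma ncard_Y [Fintype V] [DecidableRel H.Adj] (D : Set V) (hk : Even k)
    (hdeg : ∀ v ∈ D, H.degree v + t v = m + k) : Even (YD m H t D).ncard := by
  classical
  have h1 : YD m H t D =
      ((fun d : H.Dart => (Sum.inl (Sum.inl d) : GW m H t)) '' {d | d.fst ∈ D} ∪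
      (fun q : (Σ v, Fin (t v)) => (Sum.inl (Sum.inr q) : GW m H t)) '' {q | q.1 ∈ D}) ∪
      (fun c : V × Fin m => (Sum.inr c : GW m H t)) '' {c | c.1 ∈ D} := by
    ext x
    rcases x with (d | q) | c
    · simp [YD]
    · simp [YD]
    · simp [YD]
  have hi : Function.Injective (fun d : H.Dart => (Sum.inl (Sum.inl d) : GW m H t)) :=
    fun a b h => Sum.inl.inj (Sum.inl.inj h)
  have hi' : Function.Injective (fun q : (Σ v, Fin (t v)) => (Sum.inl (Sum.inr q) : GW m H t)) :=
    fun a b h => Sum.inr.inj (Sum.inl.inj h)
  have hj : Function.Injective (fun c : V × Fin m => (Sum.inr c : GW m H t)) :=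
    fun a b h => Sum.inr.inj h
  rw [h1, Set.ncard_union_eq, Set.ncard_union_eq, Set.ncard_image_of_injective _ hi,
    Set.ncard_image_of_injective _ hi', Set.ncard_image_of_injective _ hj]
  · have h2 : {d : H.Dart | d.fst ∈ D}.ncard = ∑ v ∈ D.toFinset, H.degree v := by
      rw [Set.ncard_eq_toFinset_card']
      rw [Finset.card_eq_sum_card_fiberwise (f := fun d : H.Dart => d.fst) (t := D.toFinset)]
      · apply Finset.sum_congr rfl
        intro v hv
        have hv' : v ∈ D := by simpa using hv
        rw [← H.dart_fst_fiber_card_eq_degree v]
        congr 1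
        ext d
        simp only [Finset.mem_filter, Set.mem_toFinset, Set.mem_setOf_eq, Finset.mem_univ, true_and]
        constructor
        · rintro ⟨_, h⟩; exact h
        · intro h; exact ⟨h ▸ hv', h⟩
      · intro d hd
        simpa using hd
    have h2' : {q : (Σ v, Fin (t v)) | q.1 ∈ D}.ncard = ∑ v ∈ D.toFinset, t v := by
      rw [Set.ncard_eq_toFinset_card']
      rw [Finset.card_eq_sum_card_fiberwise (f := fun q : (Σ v, Fin (t v)) => q.1)
        (t := D.toFinset)]
      · apply Finset.sum_congr rfl
        intro v hv
        have hv' : v ∈ D := by simpa using hv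
        have h3 : (Finset.univ : Finset (Fin (t v))).card = t v := by
          rw [Finset.card_univ, Fintype.card_fin]
        rw [← h3]
        symm
        refine Finset.card_bij (fun i _ => ⟨v, i⟩) ?_ ?_ ?_
        · intro i _
          simp [hv']
        · intro i _ j _ h
          rw [Sigma.mk.injEq] at h
          exact eq_of_heq h.2
        · rintro ⟨w, i⟩ hw
          simp only [Finset.mem_filter, Set.mem_toFinset, Set.mem_setOf_eq] at hw
          obtain ⟨_, rfl⟩ := hw
          exact ⟨i, Finset.mem_univ _, rfl⟩
      · intro d hd
        simpa using hd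
    have h3 : {c : V × Fin m | c.1 ∈ D}.ncard = ∑ v ∈ D.toFinset, m := by
      have : {c : V × Fin m | c.1 ∈ D} = D ×ˢ (Set.univ : Set (Fin m)) := by
        ext c; simp
      rw [this, Set.ncard_prod, Set.ncard_univ, Nat.card_eq_fintype_card, Fintype.card_fin,
        Finset.sum_const, smul_eq_mul, Set.ncard_eq_toFinset_card']
    rw [h2, h2', h3, ← Finset.sum_add_distrib, ← Finset.sum_add_distrib]
    apply Finset.even_sum
    intro v hv
    rw [hdeg v (by simpa using hv)]
    obtain ⟨a, rfl⟩ := hk
    exact ⟨m + a, by ring⟩
  · rw [Set.disjoint_left]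
    rintro _ ⟨a, _, rfl⟩ ⟨b, _, hb⟩
    simp at hb
  · rw [Set.disjoint_left]
    rintro _ (⟨a, _, rfl⟩ | ⟨a, _, rfl⟩) ⟨b, _, hb⟩
    · simp at hb
    · simp at hb

theorem weight_ge [Fintype V] [DecidableRel H.Adj] [Fintype (GW m H t)]
    [DecidablePred (· ∈ Z)] (hm : 1 ≤ m) (hk : Even k) (hk1 : 1 ≤ k) (hkm : k ≤ 2 * m)
    (hdeg : ∀ v, H.degree v + t v = m + k)
    (hsec : ∀ D : Set V, (∀ v ∈ D, t v ≤ 1) → (∀ v ∈ D, ∀ i, fr ⟨v, i⟩ ∨ ex ⟨v, i⟩) →
      ∀ d : H.Dart, d.fst ∈ D → d.snd ∉ D → ∃ e : H.Dart, e.fst ∈ D ∧ e.snd ∉ D ∧ e ≠ d)
    (hone : ∀ q r, (fr q ∨ ex q) → (fr r ∨ ex r) → q = r) (hfe : ∀ q, fr q → ¬ ex q)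
    (hfx : ∀ q, fr q → 2 ≤ t q.1 ∨ ∃ w, w ≠ q.1 ∧ H.Reachable q.1 w ∧ 1 ≤ t w)
    (hB : Barrier m H t fr U S T) (hZ : OddComp (gad m H t fr ex) U Z)
    (hZq : ∀ q, ¬ ex q → (Sum.inl (Sum.inr q) : GW m H t) ∉ Z) :
    m + k ≤ ∑ z with z ∈ Z, om m k fr ex S T z := by
  classical
  by_cases hc : ∃ c : V × Fin m, (Sum.inr c : GW m H t) ∈ Z
  · by_cases hcS : ∃ c : V × Fin m, (Sum.inr c : GW m H t) ∈ Z ∧ c.1 ∈ S
    · obtain ⟨c, hcZ, hcS⟩ := hcS
      have h1 : om (H := H) m k fr ex S T (Sum.inr c) = m + k := by simp [om, hcS]
      rw [← h1]
      exact Finset.single_le_sum (f := om m k fr ex S T) (fun _ _ => Nat.zero_le _)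
        (by simpa using hcZ)
    · push Not at hcS
      set D : Set V := {v | ∃ j, (Sum.inr (v, j) : GW m H t) ∈ Z} with hD
      have hDS : ∀ v ∈ D, v ∉ S := fun v ⟨j, hj⟩ => hcS (v, j) hj
      have hDT : ∀ v ∈ D, v ∉ T := fun v ⟨j, hj⟩ h => hZ.notMem hj ((hB.core v j).2 h)
      have hport : ∀ v ∈ D, ∀ p : Port H t, PortOf fr v p → (Sum.inl p : GW m H t) ∈ Z := by
        rintro v ⟨j, hj⟩ p hp
        exact hZ.closed hj (fun h => hcS (v, j) hj ((hB.port v p hp).1 h)) (gad_cp.2 hp)
      have hallf : ∀ v ∈ D, ∀ i : Fin (t v), fr ⟨v, i⟩ ∨ ex ⟨v, i⟩ := by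
        intro v hv i
        by_contra hi
        push Not at hi
        exact hZq _ hi.2 (hport v hv (Sum.inr ⟨v, i⟩) ⟨rfl, hi.1⟩)
      have htle : ∀ v ∈ D, t v ≤ 1 := by
        intro v hv
        by_contra hcon
        push Not at hcon
        have h1 := hone _ _ (hallf v hv ⟨0, by omega⟩) (hallf v hv ⟨1, by omega⟩)
        rw [Sigma.mk.injEq] at h1
        have h2 := eq_of_heq h1.2
        simp at h2
      have hsecond := hsec D htle hallf
      have hdart : ∀ v ∈ D, ∃ d : H.Dart, d.fst = v := by
        intro v hv
        have h1 : 0 < H.degree v := by have := hdeg v; have := htle v hv; omega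
        rw [H.degree_pos_iff_exists_adj] at h1
        obtain ⟨w, hw⟩ := h1
        exact ⟨⟨(v, w), hw⟩, rfl⟩
      have hcore : ∀ v ∈ D, ∀ j, (Sum.inr (v, j) : GW m H t) ∈ Z := by
        intro v hv j
        obtain ⟨d, hd⟩ := hdart v hv
        have h1 := hport v hv (Sum.inl d) hd
        exact hZ.closed h1 (fun h => hDT v hv ((hB.core v j).1 h)) (gad_pc.2 hd)
      have hdZ : ∀ d : H.Dart, d.fst ∈ D → (Sum.inl (Sum.inl d) : GW m H t) ∈ Z :=
        fun d hd => hport d.fst hd (Sum.inl d) rfl
      -- boundary darts
      have hbd : ∀ d : H.Dart, d.fst ∈ D → d.snd ∉ D → d.snd ∉ S →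
          d.snd ∈ T ∧ (Sum.inl (Sum.inl d.symm) : GW m H t) ∈ Z := by
        intro d hd1 hd2 hd3
        have h1 : (Sum.inl (Sum.inl d.symm) : GW m H t) ∈ Z :=
          hZ.closed (hdZ d hd1) (fun h => hd3 ((hB.port d.snd (Sum.inl d.symm) rfl).1 h)) rfl
        refine ⟨?_, h1⟩
        by_contra h2
        exact hd2 ⟨⟨0, hm⟩, hZ.closed h1 (fun h => h2 ((hB.core _ _).1 h)) rfl⟩
      let zb : H.Dart → GW m H t := fun d =>
        if d.snd ∈ S then Sum.inl (Sum.inl d) else Sum.inl (Sum.inl d.symm)
      have hzb1 : ∀ d : H.Dart, d.fst ∈ D → d.snd ∉ D → zb d ∈ Z := by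
        intro d h1 h2
        by_cases h3 : d.snd ∈ S
        · simp only [zb, h3, if_true]; exact hdZ d h1
        · simp only [zb, h3, if_false]; exact (hbd d h1 h2 h3).2
      have hzbS : ∀ d : H.Dart, d.fst ∈ D → d.snd ∉ D → d.snd ∈ S →
          k ≤ om m k fr ex S T (zb d) := by
        intro d h1 h2 h3
        simp only [zb, h3, if_true, om]; omega
      have hzbT : ∀ d : H.Dart, d.fst ∈ D → d.snd ∉ D → d.snd ∉ S →
          m ≤ om m k fr ex S T (zb d) := by
        intro d h1 h2 h3
        simp only [zb, h3, if_false, om]
        have : d.symm.fst ∈ T := (hbd d h1 h2 h3).1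
        rw [if_pos this]; omega
      have hzb3 : ∀ d e : H.Dart, d.fst ∈ D → d.snd ∉ D → e.fst ∈ D → e.snd ∉ D → zb d = zb e →
          d = e := by
        intro d e h1 h2 h3 h4 heq
        by_cases h5 : d.snd ∈ S
        · by_cases h6 : e.snd ∈ S
          · simp only [zb, h5, h6, if_true] at heq
            exact Sum.inl.inj (Sum.inl.inj heq)
          · simp only [zb, h5, h6, if_true, if_false] at heq
            have h7 := Sum.inl.inj (Sum.inl.inj heq)
            rw [h7] at h1
            exact absurd h1 h4
        · by_cases h6 : e.snd ∈ S
          · simp only [zb, h5, h6, if_true, if_false] at heq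
            have h7 := Sum.inl.inj (Sum.inl.inj heq)
            rw [← h7] at h3
            exact absurd h3 h2
          · simp only [zb, h5, h6, if_false] at heq
            have h7 := Sum.inl.inj (Sum.inl.inj heq)
            rw [← Dart.symm_symm d, h7, Dart.symm_symm]
      -- the boundary
      let A : Finset H.Dart := Finset.univ.filter fun d => d.fst ∈ D ∧ d.snd ∉ D ∧ d.snd ∉ S
      let B : Finset H.Dart := Finset.univ.filter fun d => d.fst ∈ D ∧ d.snd ∉ D ∧ d.snd ∈ S
      have hA : ∀ d, d ∈ A ↔ d.fst ∈ D ∧ d.snd ∉ D ∧ d.snd ∉ S := fun d => by simp [A]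
      have hBm : ∀ d, d ∈ B ↔ d.fst ∈ D ∧ d.snd ∉ D ∧ d.snd ∈ S := fun d => by simp [B]
      have hAB : Disjoint A B := by
        rw [Finset.disjoint_left]
        intro d h1 h2
        exact ((hA d).1 h1).2.2 ((hBm d).1 h2).2.2
      have hinj : Set.InjOn zb (A ∪ B : Finset H.Dart) := by
        intro d hd e he heq
        rw [Finset.mem_coe, Finset.mem_union, hA, hBm] at hd he
        exact hzb3 d e (by tauto) (by tauto) (by tauto) (by tauto) heq
      have hsumAB : A.card * m + B.card * k ≤ ∑ z ∈ (A ∪ B).image zb, om m k fr ex S T z := by
        rw [Finset.sum_image hinj, Finset.sum_union hAB]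
        apply add_le_add
        · rw [← smul_eq_mul, ← Finset.sum_const]
          apply Finset.sum_le_sum
          intro d hd
          rw [hA] at hd
          exact hzbT d hd.1 hd.2.1 hd.2.2
        · rw [← smul_eq_mul, ← Finset.sum_const]
          apply Finset.sum_le_sum
          intro d hd
          rw [hBm] at hd
          exact hzbS d hd.1 hd.2.1 hd.2.2
      have himZ : (A ∪ B).image zb ⊆ Finset.univ.filter (· ∈ Z) := by
        intro z hz
        rw [Finset.mem_image] at hz
        obtain ⟨d, hd, rfl⟩ := hz
        rw [Finset.mem_union, hA, hBm] at hd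
        rw [Finset.mem_filter]
        exact ⟨Finset.mem_univ _, hzb1 d (by tauto) (by tauto)⟩
      have htwo : (∃ d : H.Dart, d.fst ∈ D ∧ d.snd ∉ D) → 2 ≤ A.card + B.card := by
        rintro ⟨d, h1, h2⟩
        obtain ⟨e, h3, h4, h5⟩ := hsecond d h1 h2
        rw [← Finset.card_union_of_disjoint hAB]
        have h6 : ({d, e} : Finset H.Dart) ⊆ A ∪ B := by
          intro x hx
          rw [Finset.mem_insert, Finset.mem_singleton] at hx
          rw [Finset.mem_union, hA, hBm]
          rcases hx with rfl | rfl
          · tauto
          · tauto
        have h7 := Finset.card_le_card h6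
        rwa [Finset.card_pair h5.symm] at h7
      by_cases hq : ∃ q, fr q ∧ q.1 ∈ D
      · -- a forced half edge in `D`
        obtain ⟨⟨v, i⟩, hq, hv⟩ := hq
        simp only at hv
        have hbne : ∃ d : H.Dart, d.fst ∈ D ∧ d.snd ∉ D := by
          by_contra hcon
          push Not at hcon
          have hcl : ∀ w, H.Reachable v w → w ∈ D := by
            rintro w ⟨p⟩
            by_contra hw
            obtain ⟨a, b, hab, ha, hb⟩ := cross p hv hw
            exact hb (hcon ⟨(a, b), hab⟩ ha)
          rcases hfx _ hq with h | ⟨w, hw1, hw2, hw3⟩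
          · have := htle v hv
            simp only at h
            omega
          · have hwD := hcl w hw2
            have h1 := hone _ _ (Or.inl hq) (hallf w hwD ⟨0, hw3⟩)
            exact hw1 (congrArg Sigma.fst h1).symm
        have h2 := htwo hbne
        have hfxv : 1 ≤ fx t fr v := by
          unfold fx
          exact Finset.card_pos.2 ⟨i, by simpa using hq⟩
        have hvS := hDS v hv
        have hw : m + k - 1 ≤ om (H := H) m k fr ex S T (Sum.inr (v, ⟨0, hm⟩)) := by
          simp only [om, hvS, if_false, if_true]
          exact Nat.le_mul_of_pos_right _ hfxv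
        have hnot : (Sum.inr (v, ⟨0, hm⟩) : GW m H t) ∉ (A ∪ B).image zb := by
          rw [Finset.mem_image]
          rintro ⟨d, _, hd⟩
          by_cases h3 : d.snd ∈ S
          · simp only [zb, h3, if_true] at hd
            simp at hd
          · simp only [zb, h3, if_false] at hd
            simp at hd
        have hsub : insert (Sum.inr (v, ⟨0, hm⟩) : GW m H t) ((A ∪ B).image zb) ⊆
            Finset.univ.filter (· ∈ Z) := by
          intro z hz
          rw [Finset.mem_insert] at hz
          rcases hz with rfl | hz
          · rw [Finset.mem_filter]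
            exact ⟨Finset.mem_univ _, hcore v hv _⟩
          · exact himZ hz
        refine le_trans ?_ (Finset.sum_le_sum_of_subset hsub)
        rw [Finset.sum_insert hnot]
        have h3 : A.card + B.card ≤ A.card * m + B.card * k := by
          have := Nat.le_mul_of_pos_right A.card (show 0 < m by omega)
          have := Nat.le_mul_of_pos_right B.card (show 0 < k by omega)
          omega
        refine le_trans ?_ (le_trans (add_le_add hw hsumAB) (le_of_eq ?_))
        · omega
        · congr!
      · -- no forced half edge in `D`
        push Not at hq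
        have hex : ∀ v ∈ D, ∀ i : Fin (t v), ex ⟨v, i⟩ := by
          intro v hv i
          rcases hallf v hv i with h | h
          · exact absurd hv (hq _ h)
          · exact h
        have hnfr : ∀ q : (Σ v, Fin (t v)), q.1 ∈ D → ¬ fr q := fun q hqD h => hq q h hqD
        -- the component is the union of everything at `D` and the outer ports of `A`
        have hY : Z = YD m H t D ∪ (fun d : H.Dart => (Sum.inl (Sum.inl d.symm) : GW m H t)) ''
            {d | d ∈ A} := by
          obtain ⟨⟨v0, j0⟩, hc0⟩ := hc
          have hv0 : v0 ∈ D := ⟨j0, hc0⟩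
          apply Set.Subset.antisymm
          · intro y hy
            rw [hZ.reach hc0] at hy
            obtain ⟨p⟩ := hy
            have key : ∀ a b : GW m H t, (off (gad m H t fr ex) U).Walk a b →
                a ∈ YD m H t D ∪ (fun d : H.Dart => (Sum.inl (Sum.inl d.symm) : GW m H t)) ''
                  {d | d ∈ A} →
                b ∈ YD m H t D ∪ (fun d : H.Dart => (Sum.inl (Sum.inl d.symm) : GW m H t)) ''
                  {d | d ∈ A} := by
              intro a b p
              induction p with
              | nil => exact id
              | @cons a b c hab p ih =>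
                intro ha
                apply ih
                obtain ⟨hadj, haU, hbU⟩ := hab
                rcases ha with ha | ⟨d0, hd0, rfl⟩
                · rcases a with (d | q) | ⟨v, i⟩
                  · have ha' : d.fst ∈ D := ha
                    rcases b with (e | r) | ⟨w, j⟩
                    · rw [gad_dd] at hadj
                      subst hadj
                      by_cases h : d.snd ∈ D
                      · left; exact h
                      · right
                        refine ⟨d, ?_, rfl⟩
                        have h3 : d.snd ∉ S :=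
                          fun h' => hbU ((hB.port d.snd (Sum.inl d.symm) rfl).2 h')
                        exact (hA d).2 ⟨ha', h, h3⟩
                    · exact absurd hadj (by simp)
                    · rw [gad_dc] at hadj
                      left
                      have h4 : d.fst = w := hadj
                      show w ∈ D
                      rw [← h4]; exact ha'
                  · have ha' : q.1 ∈ D := ha
                    have hexq : ex q := hex q.1 ha' q.2
                    rcases b with (e | r) | ⟨w, j⟩
                    · exact absurd hadj (by simp)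
                    · rw [gad_qq] at hadj
                      exact absurd hexq hadj.2.1
                    · rw [gad_qc] at hadj
                      left
                      have h4 : q.1 = w := hadj.1
                      show w ∈ D
                      rw [← h4]; exact ha'
                  · have ha' : v ∈ D := ha
                    rcases b with (e | r) | ⟨w, j⟩
                    · rw [gad_cd] at hadj
                      left
                      have h4 : e.fst = v := hadj
                      show e.fst ∈ D
                      rw [h4]; exact ha'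
                    · rw [gad_cq] at hadj
                      left
                      have h4 : r.1 = v := hadj.1
                      show r.1 ∈ D
                      rw [h4]; exact ha'
                    · exact absurd hadj (by simp)
                · have hd0' := (hA d0).1 hd0
                  rcases b with (e | r) | ⟨w, j⟩
                  · rw [gad_dd] at hadj
                    subst hadj
                    left
                    show d0.symm.symm.fst ∈ D
                    rw [Dart.symm_symm]
                    exact hd0'.1
                  · exact absurd hadj (by simp)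
                  · rw [gad_dc] at hadj
                    exfalso
                    apply hbU
                    have h4 : d0.snd = w := hadj
                    rw [hB.core, ← h4]
                    exact (hbd d0 hd0'.1 hd0'.2.1 hd0'.2.2).1
            exact key _ _ p (Or.inl hv0)
          · rintro y (hy | ⟨d0, hd0, rfl⟩)
            · rcases y with (d | q) | ⟨v, j⟩
              · exact hdZ d hy
              · exact hport q.1 hy (Sum.inr q) ⟨rfl, hnfr q hy⟩
              · exact hcore v hy j
            · have hd0' := (hA d0).1 hd0
              exact (hbd d0 hd0'.1 hd0'.2.1 hd0'.2.2).2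
        have hcardZ : Z.ncard = (YD m H t D).ncard + A.card := by
          rw [hY, Set.ncard_union_eq, Set.ncard_image_of_injOn]
          · congr 1
            rw [← Set.ncard_coe_finset]
            congr 1
          · intro d _ e _ h
            have h7 := Sum.inl.inj (Sum.inl.inj h)
            rw [← Dart.symm_symm d, h7, Dart.symm_symm]
          · rw [Set.disjoint_left]
            rintro _ hx ⟨d, hd, rfl⟩
            exact ((hA d).1 hd).2.1 hx
        have hodd := hZ.2
        have hev := ncard_Y (H := H) (t := t) (m := m) D hk (fun v _ => hdeg v)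
        rw [hcardZ] at hodd
        have hAodd : Odd A.card := by
          rw [Nat.odd_iff] at hodd ⊢
          rw [Nat.even_iff] at hev
          omega
        have hA1 : 1 ≤ A.card := hAodd.pos
        have h2 := htwo (by
          obtain ⟨d, hd⟩ := Finset.card_pos.1 hA1
          exact ⟨d, ((hA d).1 hd).1, ((hA d).1 hd).2.1⟩)
        refine le_trans ?_ (le_trans hsumAB (Finset.sum_le_sum_of_subset himZ))
        by_cases hB0 : 1 ≤ B.card
        · have := Nat.mul_le_mul_right m hA1
          have := Nat.mul_le_mul_right k hB0
          omega
        · have hA3 : 3 ≤ A.card := by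
            rw [Nat.odd_iff] at hAodd
            omega
          have := Nat.mul_le_mul_right m hA3
          omega
  · -- no core in `Z`
    push Not at hc
    obtain ⟨z, hz⟩ : Z.Nonempty := by
      rw [Set.nonempty_iff_ne_empty]
      rintro rfl
      have := hZ.2
      simp at this
    have hdart : ∀ d : H.Dart, (Sum.inl (Sum.inl d) : GW m H t) ∈ Z → d.fst ∈ T := by
      intro d hd
      by_contra h
      exact hc (d.fst, ⟨0, hm⟩) (hZ.closed hd (fun h' => h ((hB.core _ _).1 h')) rfl)
    rcases z with (d | q) | c
    · have hdT := hdart d hz
      by_cases hs : d.snd ∈ S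
      · have h1 : om (H := H) (t := t) m k fr ex S T (Sum.inl (Sum.inl d)) = m + k := by
          simp [om, hdT, hs]
        rw [← h1]
        exact Finset.single_le_sum (f := om m k fr ex S T) (fun _ _ => Nat.zero_le _)
          (by simpa using hz)
      · exfalso
        have h1 : (Sum.inl (Sum.inl d.symm) : GW m H t) ∈ Z :=
          hZ.closed hz (fun h => hs ((hB.port d.snd (Sum.inl d.symm) rfl).1 h)) rfl
        have h2 := hdart _ h1
        have h3 : (Sum.inl (Sum.inl d) : GW m H t) ≠ Sum.inl (Sum.inl d.symm) := by
          intro h
          exact d.symm_ne (Sum.inl.inj (Sum.inl.inj h)).symm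
        have h4 : Z = {Sum.inl (Sum.inl d), Sum.inl (Sum.inl d.symm)} := by
          apply Set.Subset.antisymm
          · intro y hy
            rw [hZ.reach hz] at hy
            obtain ⟨p⟩ := hy
            have key : ∀ a b : GW m H t, (off (gad m H t fr ex) U).Walk a b →
                a ∈ ({Sum.inl (Sum.inl d), Sum.inl (Sum.inl d.symm)} : Set (GW m H t)) →
                b ∈ ({Sum.inl (Sum.inl d), Sum.inl (Sum.inl d.symm)} : Set (GW m H t)) := by
              intro a b p
              induction p with
              | nil => exact id
              | @cons a b c hab p ih =>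
                intro ha
                apply ih
                obtain ⟨hadj, haU, hbU⟩ := hab
                rcases ha with rfl | ha
                · rcases b with (e | r) | ⟨w, j⟩
                  · rw [gad_dd] at hadj
                    subst hadj
                    right; rfl
                  · exact absurd hadj (by simp)
                  · rw [gad_dc] at hadj
                    exfalso
                    apply hbU
                    have h4 : d.fst = w := hadj
                    rw [hB.core, ← h4]
                    exact hdT
                · rw [Set.mem_singleton_iff] at ha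
                  subst ha
                  rcases b with (e | r) | ⟨w, j⟩
                  · rw [gad_dd] at hadj
                    subst hadj
                    left
                    rw [Dart.symm_symm]
                  · exact absurd hadj (by simp)
                  · rw [gad_dc] at hadj
                    exfalso
                    apply hbU
                    have h4 : d.symm.fst = w := hadj
                    rw [hB.core, ← h4]
                    exact h2
            exact key _ _ p (Or.inl rfl)
          · rintro y (rfl | hy)
            · exact hz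
            · rw [Set.mem_singleton_iff] at hy
              subst hy
              exact h1
        have h5 := hZ.2
        rw [h4, Set.ncard_pair h3] at h5
        exact absurd h5 (by decide)
    · by_cases hq : ex q
      · have hfr : ¬ fr q := fun h => hfe q h hq
        have hqT : q.1 ∈ T := by
          by_contra h
          exact hc (q.1, ⟨0, hm⟩) (hZ.closed hz (fun h' => h ((hB.core _ _).1 h'))
            (gad_qc.2 ⟨rfl, hfr⟩))
        have h1 : om (H := H) (t := t) m k fr ex S T (Sum.inl (Sum.inr q)) = m + k := by
          simp [om, hq, hqT]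
        rw [← h1]
        exact Finset.single_le_sum (f := om m k fr ex S T) (fun _ _ => Nat.zero_le _)
          (by simpa using hz)
      · exact absurd hz (hZq q hq)
    · exact absurd hz (hc c)

end L1

end Pool.Agent.H567R3.ZG
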