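import Pool.Agent.H567R3.ZG.Pm

set_option autoImplicit false
set_option linter.deprecated false

namespace Pool.Agent.H567R3.ZG

open SimpleGraph Pool.Agent.Helper96.TwoFactor

variable {V : Type} {m k : ℕ} {H : SimpleGraph V} {t : V → ℕ} {fr ex : (Σ v, Fin (t v)) → Prop}

/-- the factor given by a perfect matching of the gadget graph -/
def Fac (M : Subgraph (gad m H t fr ex)) : SimpleGraph V where
  Adj u v := ∃ h : H.Adj u v, M.Adj (.inl (.inl ⟨(u, v), h⟩)) (.inl (.inl ⟨(v, u), h.symm⟩))
  symm := ⟨fun _ _ ⟨h, hm⟩ => ⟨h.symm, hm.symm⟩⟩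
  loopless := ⟨fun _ ⟨h, _⟩ => h.ne rfl⟩

/-- the number of half edges at `v` which are in the factor -/
noncomputable def outM (M : Subgraph (gad m H t fr ex)) (v : V) : ℕ :=
  {i : Fin (t v) | ¬ ∃ c, M.Adj (.inl (.inr ⟨v, i⟩)) (.inr c)}.ncard

theorem fac_deg [Finite V] (hdeg : ∀ v, (H.neighborSet v).ncard + t v = m + k)
    (M : Subgraph (gad m H t fr ex)) (hM : M.IsPerfectMatching) (v : V) :
    ((Fac M).neighborSet v).ncard + outM M v = k := by
  classical
  have := Fintype.ofFinite V
  have hM' := Subgraph.isPerfectMatching_iff.1 hM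
  set A : Set H.Dart := {d | d.fst = v ∧ ∃ c, M.Adj (.inl (.inl d)) (.inr c)} with hA
  set A' : Set H.Dart := {d | d.fst = v ∧ ¬ ∃ c, M.Adj (.inl (.inl d)) (.inr c)} with hA'
  set B : Set (Fin (t v)) := {i | ∃ c, M.Adj (.inl (.inr ⟨v, i⟩)) (.inr c)} with hB
  -- all darts at `v`
  have e1 : A.ncard + A'.ncard = (H.neighborSet v).ncard := by
    have h1 : A ∪ A' = {d : H.Dart | d.fst = v} := by
      ext d
      simp only [hA, hA', Set.mem_union, Set.mem_setOf_eq]
      tauto
    have h2 : Disjoint A A' := by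
      rw [Set.disjoint_left]
      rintro d ⟨_, h⟩ ⟨_, h'⟩
      exact h' h
    rw [← Set.ncard_union_eq h2, h1]
    have h3 : (fun d : H.Dart => d.snd) '' {d : H.Dart | d.fst = v} = H.neighborSet v := by
      ext w
      constructor
      · rintro ⟨d, hd, rfl⟩
        have hd' : d.fst = v := hd
        rw [mem_neighborSet, ← hd']
        exact d.adj
      · intro hw
        exact ⟨⟨(v, w), hw⟩, rfl, rfl⟩
    rw [← h3, Set.ncard_image_of_injOn]
    intro d hd e he h
    have hd' : d.fst = v := hd
    have he' : e.fst = v := he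
    exact Dart.ext _ _ (Prod.ext (hd'.trans he'.symm) h)
  have e2 : B.ncard + outM M v = t v := by
    have h1 : {i : Fin (t v) | ¬ ∃ c, M.Adj (.inl (.inr ⟨v, i⟩)) (.inr c)} = Bᶜ := rfl
    unfold outM
    rw [h1, Set.ncard_add_ncard_compl, Nat.card_eq_fintype_card, Fintype.card_fin]
  -- the cores
  have hcore : ∀ j : Fin m, ∃ p : Port H t, M.Adj (.inl p) (.inr (v, j)) := by
    intro j
    obtain ⟨w, hw, -⟩ := hM' (.inr (v, j))
    rcases w with p | c
    · exact ⟨p, hw.symm⟩
    · exact absurd hw.adj_sub (by simp)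
  choose g hg using hcore
  have hginj : Function.Injective g := by
    intro i j hij
    have h1 := hg i
    rw [hij] at h1
    have h2 := (hM' (.inl (g j))).unique h1 (hg j)
    have h3 := Sum.inr.inj h2
    exact congrArg Prod.snd h3
  have e3 : A.ncard + B.ncard = m := by
    have h1 : Set.range g = Sum.inl '' A ∪ (fun i : Fin (t v) => (Sum.inr ⟨v, i⟩ : Port H t)) '' B := by
      ext p
      constructor
      · rintro ⟨j, rfl⟩
        have h2 := hg j
        have h3 := h2.adj_sub
        rcases hgj : g j with d | ⟨w, i⟩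
        · rw [hgj] at h2 h3
          left
          rw [gad_dc] at h3
          exact ⟨d, ⟨h3, _, h2⟩, rfl⟩
        · rw [hgj] at h2 h3
          right
          rw [gad_qc] at h3
          have h4 : w = v := h3.1
          subst h4
          exact ⟨i, ⟨_, h2⟩, rfl⟩
      · rintro (⟨d, ⟨hd, c, hc⟩, rfl⟩ | ⟨i, ⟨c, hc⟩, rfl⟩)
        · have h2 := hc.adj_sub
          rw [gad_dc] at h2
          obtain ⟨w, j⟩ := c
          have h3 : w = v := h2.symm.trans hd
          subst h3
          refine ⟨j, ?_⟩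
          have h4 := (hM' (.inr (w, j))).unique (hg j).symm hc.symm
          exact Sum.inl.inj h4
        · have h2 := hc.adj_sub
          rw [gad_qc] at h2
          obtain ⟨w, j⟩ := c
          have h3 : v = w := h2.1
          subst h3
          refine ⟨j, ?_⟩
          have h4 := (hM' (.inr (v, j))).unique (hg j).symm hc.symm
          exact Sum.inl.inj h4
    have h2 : (Set.range g).ncard = m := by
      rw [← Set.image_univ, Set.ncard_image_of_injective _ hginj, Set.ncard_univ,
        Nat.card_eq_fintype_card, Fintype.card_fin]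
    have hi : Function.Injective (fun i : Fin (t v) => (Sum.inr ⟨v, i⟩ : Port H t)) := by
      intro i j h
      have h3 := Sum.inr.inj h
      rw [Sigma.mk.injEq] at h3
      exact eq_of_heq h3.2
    rw [h1, Set.ncard_union_eq, Set.ncard_image_of_injective _ Sum.inl_injective,
      Set.ncard_image_of_injective _ hi] at h2
    · exact h2
    · rw [Set.disjoint_left]
      rintro _ ⟨a, _, rfl⟩ ⟨b, _, hb⟩
      simp at hb
  have e4 : ((Fac M).neighborSet v).ncard = A'.ncard := by
    have h3 : (fun d : H.Dart => d.snd) '' A' = (Fac M).neighborSet v := by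
      ext w
      constructor
      · rintro ⟨d, ⟨hd, hd2⟩, rfl⟩
        subst hd
        rw [mem_neighborSet]
        refine ⟨d.adj, ?_⟩
        obtain ⟨w, hw, -⟩ := hM' (.inl (.inl d))
        rcases w with (e | q) | c
        · have h4 := hw.adj_sub
          rw [gad_dd] at h4
          subst h4
          exact hw
        · exact absurd hw.adj_sub (by simp)
        · exact absurd ⟨c, hw⟩ hd2
      · rintro ⟨h, hm⟩
        refine ⟨⟨(v, w), h⟩, ⟨rfl, ?_⟩, rfl⟩
        rintro ⟨c, hc⟩
        have h4 := (hM' _).unique hc hm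
        simp at h4
    rw [← h3, Set.ncard_image_of_injOn]
    intro d hd e he h
    have hd' : d.fst = v := hd.1
    have he' : e.fst = v := he.1
    exact Dart.ext _ _ (Prod.ext (hd'.trans he'.symm) h)
  have := hdeg v
  omega

/-- **The factor.**  `deg v + t v = m + k`, `k` even, `k ≤ 2 m`; `x` : a forced half edge,
`y` : an excluded half edge, at most one of the two. -/
theorem exists_factor [Finite V] (hm : 1 ≤ m) (hk : Even k) (hk1 : 1 ≤ k) (hkm : k ≤ 2 * m)
    (hdeg : ∀ v, (H.neighborSet v).ncard + t v = m + k)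
    (x y : Option V) (hxy : x = none ∨ y = none)
    (hsec : ∀ D : Set V, (∀ v ∈ D, t v ≤ 1) → (∀ v ∈ D, t v ≠ 0 → x = some v ∨ y = some v) →
      ∀ d : H.Dart, d.fst ∈ D → d.snd ∉ D → ∃ e : H.Dart, e.fst ∈ D ∧ e.snd ∉ D ∧ e ≠ d)
    (hx : ∀ v, x = some v → 1 ≤ t v ∧ (2 ≤ t v ∨ ∃ w, w ≠ v ∧ H.Reachable v w ∧ 1 ≤ t w))
    (hy : ∀ v, y = some v → 1 ≤ t v) :
    ∃ (F : SimpleGraph V) (out : V → ℕ), F ≤ H ∧ (∀ v, out v ≤ t v) ∧
      (∀ v, (F.neighborSet v).ncard + out v = k) ∧ (∀ v, x = some v → 1 ≤ out v) ∧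
      ∀ v, y = some v → out v + 1 ≤ t v := by
  classical
  set fr : (Σ v, Fin (t v)) → Prop := fun q => x = some q.1 ∧ q.2.val = 0 with hfr
  set ex : (Σ v, Fin (t v)) → Prop := fun q => y = some q.1 ∧ q.2.val = 0 with hex
  obtain ⟨M, hM⟩ := exists_pm (m := m) (k := k) (H := H) (t := t) (fr := fr) (ex := ex)
    hm hk hk1 hkm hdeg (by
      intro D h1 h2
      refine hsec D h1 ?_
      intro v hv h3
      rcases h2 v hv ⟨0, Nat.pos_of_ne_zero h3⟩ with h | h
      · exact Or.inl h.1
      · exact Or.inr h.1) (by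
      rintro ⟨v, i⟩ ⟨w, j⟩ h1 h2
      have h3 : v = w ∧ i.val = 0 ∧ j.val = 0 := by
        rcases h1 with ⟨h1, h1'⟩ | ⟨h1, h1'⟩ <;> rcases h2 with ⟨h2, h2'⟩ | ⟨h2, h2'⟩
        · exact ⟨Option.some.inj (h1.symm.trans h2), h1', h2'⟩
        · rcases hxy with h | h
          · rw [h] at h1; exact absurd h1 (by simp)
          · rw [h] at h2; exact absurd h2 (by simp)
        · rcases hxy with h | h
          · rw [h] at h2; exact absurd h2 (by simp)
          · rw [h] at h1; exact absurd h1 (by simp)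
        · exact ⟨Option.some.inj (h1.symm.trans h2), h1', h2'⟩
      obtain ⟨rfl, h4, h5⟩ := h3
      congr 1
      exact Fin.ext (h4.trans h5.symm)) (by
      rintro ⟨v, i⟩ ⟨h1, _⟩ ⟨h2, _⟩
      rcases hxy with h | h
      · rw [h] at h1; exact absurd h1 (by simp)
      · rw [h] at h2; exact absurd h2 (by simp)) (by
      rintro ⟨v, i⟩ ⟨h1, h2⟩
      exact (hx v h1).2)
  refine ⟨Fac M, outM M, fun u v h => h.1, ?_, fac_deg hdeg M hM, ?_, ?_⟩
  · intro v
    unfold outM
    have h1 := Set.ncard_le_ncard (Set.subset_univ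
      {i : Fin (t v) | ¬ ∃ c, M.Adj (.inl (.inr ⟨v, i⟩)) (.inr c)}) (Set.toFinite _)
    rwa [Set.ncard_univ, Nat.card_eq_fintype_card, Fintype.card_fin] at h1
  · intro v hv
    have h1 := (hx v hv).1
    unfold outM
    rw [Nat.one_le_iff_ne_zero, Ne, Set.ncard_eq_zero (Set.toFinite _)]
    intro h2
    have h3 : (⟨0, h1⟩ : Fin (t v)) ∈
        {i : Fin (t v) | ¬ ∃ c, M.Adj (.inl (.inr ⟨v, i⟩)) (.inr c)} := by
      rintro ⟨c, hc⟩
      have h4 := hc.adj_sub
      rw [gad_qc] at h4
      exact h4.2 ⟨hv, rfl⟩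
    rw [h2] at h3
    exact h3
  · intro v hv
    have h1 := hy v hv
    have hM' := Subgraph.isPerfectMatching_iff.1 hM
    have h3 : (⟨0, h1⟩ : Fin (t v)) ∉
        {i : Fin (t v) | ¬ ∃ c, M.Adj (.inl (.inr ⟨v, i⟩)) (.inr c)} := by
      intro h
      apply h
      obtain ⟨w, hw, -⟩ := hM' (.inl (.inr ⟨v, ⟨0, h1⟩⟩))
      rcases w with (e | q) | c
      · exact absurd hw.adj_sub (by simp)
      · have h4 := hw.adj_sub
        rw [gad_qq] at h4
        exact absurd (⟨hv, rfl⟩ : ex ⟨v, ⟨0, h1⟩⟩) h4.2.1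
      · exact ⟨c, hw⟩
    have h4 : {i : Fin (t v) | ¬ ∃ c, M.Adj (.inl (.inr ⟨v, i⟩)) (.inr c)}.ncard <
        (Set.univ : Set (Fin (t v))).ncard := by
      apply Set.ncard_lt_ncard _ (Set.toFinite _)
      refine ⟨Set.subset_univ _, fun h => h3 (h (Set.mem_univ _))⟩
    rw [Set.ncard_univ, Nat.card_eq_fintype_card, Fintype.card_fin] at h4
    unfold outM
    omega

/-- the boundary condition for bridgeless graphs -/
theorem sec_bridgeless (hbr : ∀ u v, H.Adj u v → ¬ H.IsBridge s(u, v)) (D : Set V)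
    (d : H.Dart) (h1 : d.fst ∈ D) (h2 : d.snd ∉ D) :
    ∃ e : H.Dart, e.fst ∈ D ∧ e.snd ∉ D ∧ e ≠ d := by
  have h3 := hbr _ _ d.adj
  rw [isBridge_iff] at h3
  push Not at h3
  obtain ⟨p⟩ := h3
  obtain ⟨a, b, hab, ha, hb⟩ := cross p h1 h2
  rw [deleteEdges_adj] at hab
  refine ⟨⟨(a, b), hab.1⟩, ha, hb, ?_⟩
  intro heq
  apply hab.2
  rw [Set.mem_singleton_iff]
  have h4 : a = d.fst := congrArg (fun d : H.Dart => d.fst) heq
  have h5 : b = d.snd := congrArg (fun d : H.Dart => d.snd) heq
  rw [h4, h5]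

/-- the boundary condition for even degrees -/
theorem sec_even [Finite V] (D : Set V) (hev : ∀ v ∈ D, Even (H.neighborSet v).ncard)
    (d : H.Dart) (h1 : d.fst ∈ D) (h2 : d.snd ∉ D) :
    ∃ e : H.Dart, e.fst ∈ D ∧ e.snd ∉ D ∧ e ≠ d := by
  classical
  have := Fintype.ofFinite V
  by_contra hcon
  push Not at hcon
  let K : SimpleGraph V :=
    { Adj := fun a b => H.Adj a b ∧ a ∈ D ∧ b ∈ D
      symm := ⟨fun a b ⟨h1, h2, h3⟩ => ⟨h1.symm, h3, h2⟩⟩
      loopless := ⟨fun a ⟨h1, _⟩ => h1.ne rfl⟩ }
  have h3 := K.even_card_odd_degree_vertices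
  have h4 : (Finset.univ.filter fun w => Odd (K.degree w)) = {d.fst} := by
    ext w
    simp only [Finset.mem_filter, Finset.mem_univ, true_and, Finset.mem_singleton]
    have hd : K.degree w = (K.neighborSet w).ncard := by
      rw [← card_neighborFinset_eq_degree, ← Set.ncard_coe_finset, coe_neighborFinset]
    rw [hd]
    by_cases hw : w ∈ D
    · by_cases hwd : w = d.fst
      · subst hwd
        have h5 : H.neighborSet d.fst = insert d.snd (K.neighborSet d.fst) := by
          ext b
          simp only [mem_neighborSet, Set.mem_insert_iff, K]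
          constructor
          · intro h
            by_cases hb : b ∈ D
            · exact Or.inr ⟨h, hw, hb⟩
            · left
              have h6 := hcon ⟨(d.fst, b), h⟩ hw hb
              exact congrArg (fun d : H.Dart => d.snd) h6
          · rintro (rfl | h)
            · exact d.adj
            · exact h.1
        have h6 : (H.neighborSet d.fst).ncard = (K.neighborSet d.fst).ncard + 1 := by
          rw [h5, Set.ncard_insert_of_notMem]
          intro h
          exact h2 h.2.2
        have h7 := hev _ h1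
        rw [h6, Nat.even_add_one, Nat.not_even_iff_odd] at h7
        simp [h7]
      · have h5 : H.neighborSet w = K.neighborSet w := by
          ext b
          simp only [mem_neighborSet, K]
          constructor
          · intro h
            refine ⟨h, hw, ?_⟩
            by_contra hb
            have h6 := hcon ⟨(w, b), h⟩ hw hb
            exact hwd (congrArg (fun d : H.Dart => d.fst) h6)
          · exact fun h => h.1
        have h7 := hev _ hw
        rw [h5] at h7
        simp [hwd, h7]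
    · have h5 : K.neighborSet w = ∅ := by
        ext b
        simp only [mem_neighborSet, K, Set.mem_empty_iff_false]
        tauto
      have hwd : w ≠ d.fst := by rintro rfl; exact hw h1
      rw [h5, Set.ncard_empty]
      simp [hwd]
  have h5 : (Finset.univ.filter fun w => Odd (K.degree w)).card = 1 := by
    rw [h4, Finset.card_singleton]
  have h6 : Even (Finset.univ.filter fun w => Odd (K.degree w)).card := by convert h3
  rw [h5] at h6
  exact absurd h6 (by decide)

end Pool.Agent.H567R3.ZG
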