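import Pool.Agent.H567R3.ZG.Ind

set_option autoImplicit false
set_option linter.deprecated false

namespace Pool.Agent.H567R3.ZG

open SimpleGraph Pool.Agent.H567R3.ZS

variable {V : Type}

/-- from root value `± c x` to root value `c x` -/
theorem root_sign [Fintype V] {H : SimpleGraph V} {t : V → ℕ} {c : V → ℤ} {v0 x : V}
    (hother : ∀ w, H.Reachable v0 w → w ≠ x → c w = 0)
    (hs : ∃ (r : ℤ) (f : V → V → ℤ), (r = c x ∨ r = - c x) ∧ IsW H f ∧
        ∀ w, H.Reachable v0 w → (∀ b, H.Adj w b → f w b ≠ 0 ∧ |f w b| < 5) ∧
          ∃ s, HS (t w) s ∧ (∑ b, f w b) + s +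
            (open Classical in (if w = x then r else 0)) = 0) :
    ∃ f, IsW H f ∧ ∀ w, H.Reachable v0 w → Good H t c w (f w) := by
  classical
  obtain ⟨r, f, hr, hf, hg⟩ := hs
  rcases hr with rfl | rfl
  · refine ⟨f, hf, fun w hw => ?_⟩
    obtain ⟨h1, s, h2, h3⟩ := hg w hw
    refine ⟨h1, s, h2, ?_⟩
    by_cases hwx : w = x
    · subst hwx
      rw [if_pos rfl] at h3
      exact h3
    · rw [if_neg hwx] at h3
      rw [hother w hw hwx]
      exact h3
  · refine ⟨fun a b => - f a b, ⟨fun a b => by rw [hf.symm], fun a b hab => by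
      rw [hf.supp a b hab]; simp⟩, fun w hw => ?_⟩
    obtain ⟨h1, s, h2, h3⟩ := hg w hw
    refine ⟨fun b hb => ?_, -s, h2.neg, ?_⟩
    · have := h1 b hb
      rw [abs_neg]
      exact ⟨neg_ne_zero.2 this.1, this.2⟩
    · rw [Finset.sum_neg_distrib]
      by_cases hwx : w = x
      · subst hwx
        rw [if_pos rfl] at h3
        linarith
      · rw [if_neg hwx] at h3
        rw [hother w hw hwx]
        linarith

theorem BR_three [Fintype V] : BR V 3 := by
  classical
  intro H hbr t c hdeg hc huniq
  apply exists_glue (Good H t c)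
  intro v0
  have hsec := fun (D : Set V) => sec_bridgeless hbr D
  have ht'1 : ∀ v, c v ≠ 0 → t v + (if c v = 0 then 0 else 1) = t v + 1 := by
    intro v hv
    rw [if_neg hv]
  by_cases hroot : ∃ x, H.Reachable v0 x ∧ c x ≠ 0
  · obtain ⟨x, hx1, hx2⟩ := hroot
    have hother : ∀ w, H.Reachable v0 w → w ≠ x → c w = 0 := by
      intro w hw hne
      by_contra hcw
      exact hne (huniq w x hcw hx2 (hw.symm.trans hx1))
    have hcx := hc x hx2
    apply root_sign hother
    have hcx2 : |c x| = 2 ∨ |c x| = 4 := by
      rcases hcx with h2 | h2 | h2 | h2 <;> rw [h2] <;> norm_num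
    have hr1 : |c x| = c x ∨ |c x| = - c x := abs_choice (c x)
    have hr2 : -|c x| = c x ∨ -|c x| = - c x := by
      rcases abs_choice (c x) with h | h <;> rw [h] <;> simp
    rcases hcx2 with h4 | h4
    · by_cases hsp : 1 ≤ t x ∨ ∃ w, w ≠ x ∧ H.Reachable x w ∧ 1 ≤ t w + (if c w = 0 then 0 else 1)
      · -- the root is in the factor
        obtain ⟨F, out, hF, ho1, ho2, ho3, -⟩ := exists_factor (m := 1) (k := 2) (H := H)
          (t := fun v => t v + (if c v = 0 then 0 else 1))
          (by norm_num) (by decide) (by norm_num) (by norm_num) (by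
            intro v
            have := hdeg v
            try simp only
            convert this using 3) (some x) none (Or.inr rfl)
          (fun D _ _ d h1 h2 => hsec D d h1 h2) (by
          intro v hv
          have hv' : x = v := Option.some.inj hv
          subst hv'
          try simp only
          rw [if_neg hx2]
          refine ⟨by omega, ?_⟩
          rcases hsp with h | h
          · left; omega
          · right; exact h) (by intro v hv; simp at hv)
        obtain ⟨f, hf1, hf2, hf3⟩ := two_values hF 2 (-4)
        refine ⟨|c x|, f, hr1, hf1, ?_⟩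
        intro w hw
        refine ⟨fun b hb => ?_, ?_⟩
        · rcases hf2 w b hb with h | h <;> rw [h] <;> norm_num
        · have h1 := hdeg w
          have h2 := ho2 w
          have h3 := ho1 w
          try simp only at h3
          by_cases hwx : w = x
          · subst hwx
            rw [if_pos rfl]
            rw [if_neg hx2] at h1 h3
            have h5 := ho3 w rfl
            refine ⟨_, HS.mix (n := t w) (a := out w - 1) (by omega) (d := 2) (e := -4)
              (by omega) (by omega), ?_⟩
            rw [hf3, h4, Nat.cast_sub h5]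
            have h6 : ((H.neighborSet w).ncard : ℤ) = 2 - t w := by omega
            have h7 : ((F.neighborSet w).ncard : ℤ) = 2 - out w := by omega
            rw [h6, h7]
            push_cast
            ring
          · rw [if_neg hwx]
            rw [if_pos (hother w hw hwx)] at h1 h3
            refine ⟨_, HS.mix (n := t w) (a := out w) (by omega) (d := 2) (e := -4)
              (by omega) (by omega), ?_⟩
            rw [hf3]
            have h6 : ((H.neighborSet w).ncard : ℤ) = 3 - t w := by omega
            have h7 : ((F.neighborSet w).ncard : ℤ) = 2 - out w := by omega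
            rw [h6, h7]
            ring
      · -- the root is the only half edge
        push Not at hsp
        obtain ⟨htx, hsp⟩ := hsp
        have htx : t x = 0 := by omega
        obtain ⟨F, out, hF, ho1, ho2, -, ho3⟩ := exists_factor (m := 1) (k := 2) (H := H)
          (t := fun v => t v + (if c v = 0 then 0 else 1))
          (by norm_num) (by decide) (by norm_num) (by norm_num) (by
            intro v
            have := hdeg v
            try simp only
            convert this using 3) none (some x) (Or.inl rfl)
          (fun D _ _ d h1 h2 => hsec D d h1 h2) (by intro v hv; simp at hv) (by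
          intro v hv
          have hv' : x = v := Option.some.inj hv
          subst hv'
          try simp only
          rw [if_neg hx2]
          omega)
        obtain ⟨f, hf1, hf2, hf3⟩ := two_values hF 1 (-2)
        refine ⟨-|c x|, f, hr2, hf1, ?_⟩
        intro w hw
        refine ⟨fun b hb => ?_, ?_⟩
        · rcases hf2 w b hb with h | h <;> rw [h] <;> norm_num
        · have h1 := hdeg w
          have h2 := ho2 w
          have h3 := ho1 w
          try simp only at h3
          by_cases hwx : w = x
          · subst hwx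
            rw [if_pos rfl]
            have h5 := ho3 w rfl
            try simp only at h5
            rw [if_neg hx2] at h1 h3 h5
            rw [htx]
            refine ⟨0, rfl, ?_⟩
            rw [hf3, h4]
            have h6 : ((H.neighborSet w).ncard : ℤ) = 2 := by omega
            have h7 : ((F.neighborSet w).ncard : ℤ) = 2 := by omega
            rw [h6, h7]
            norm_num
          · rw [if_neg hwx]
            have h5 := hsp w hwx (hx1.symm.trans hw)
            rw [if_pos (hother w hw hwx)] at h1 h3 h5
            have h6 : t w = 0 := by omega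
            rw [h6]
            refine ⟨0, rfl, ?_⟩
            rw [hf3]
            have h6 : ((H.neighborSet w).ncard : ℤ) = 3 := by omega
            have h7 : ((F.neighborSet w).ncard : ℤ) = 2 := by omega
            rw [h6, h7]
            norm_num
    · -- the root is not in the factor
      obtain ⟨F, out, hF, ho1, ho2, -, ho3⟩ := exists_factor (m := 1) (k := 2) (H := H)
        (t := fun v => t v + (if c v = 0 then 0 else 1))
        (by norm_num) (by decide) (by norm_num) (by norm_num) (by
          intro v
          have := hdeg v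
          try simp only
          convert this using 3) none (some x) (Or.inl rfl)
        (fun D _ _ d h1 h2 => hsec D d h1 h2) (by intro v hv; simp at hv) (by
        intro v hv
        have hv' : x = v := Option.some.inj hv
        subst hv'
        try simp only
        rw [if_neg hx2]
        omega)
      obtain ⟨f, hf1, hf2, hf3⟩ := two_values hF 2 (-4)
      refine ⟨-|c x|, f, hr2, hf1, ?_⟩
      intro w hw
      refine ⟨fun b hb => ?_, ?_⟩
      · rcases hf2 w b hb with h | h <;> rw [h] <;> norm_num
      · have h1 := hdeg w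
        have h2 := ho2 w
        have h3 := ho1 w
        try simp only at h3
        by_cases hwx : w = x
        · subst hwx
          rw [if_pos rfl]
          have h5 := ho3 w rfl
          try simp only at h5
          rw [if_neg hx2] at h1 h3 h5
          refine ⟨_, HS.mix (n := t w) (a := out w) (by omega) (d := 2) (e := -4)
            (by omega) (by omega), ?_⟩
          rw [hf3, h4]
          have h6 : ((H.neighborSet w).ncard : ℤ) = 2 - t w := by omega
          have h7 : ((F.neighborSet w).ncard : ℤ) = 2 - out w := by omega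
          rw [h6, h7]
          ring
        · rw [if_neg hwx]
          rw [if_pos (hother w hw hwx)] at h1 h3
          refine ⟨_, HS.mix (n := t w) (a := out w) (by omega) (d := 2) (e := -4)
            (by omega) (by omega), ?_⟩
          rw [hf3]
          have h6 : ((H.neighborSet w).ncard : ℤ) = 3 - t w := by omega
          have h7 : ((F.neighborSet w).ncard : ℤ) = 2 - out w := by omega
          rw [h6, h7]
          ring
  · push Not at hroot
    obtain ⟨F, out, hF, ho1, ho2, -, -⟩ := exists_factor (m := 1) (k := 2) (H := H)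
      (t := fun v => t v + (if c v = 0 then 0 else 1))
      (by norm_num) (by decide) (by norm_num) (by norm_num) (by
        intro v
        have := hdeg v
        try simp only
        convert this using 3) none none (Or.inl rfl)
      (fun D _ _ d h1 h2 => hsec D d h1 h2) (by intro v hv; simp at hv)
      (by intro v hv; simp at hv)
    obtain ⟨f, hf1, hf2, hf3⟩ := two_values hF 2 (-4)
    refine ⟨f, hf1, ?_⟩
    intro w hw
    refine ⟨fun b hb => ?_, ?_⟩
    · rcases hf2 w b hb with h | h <;> rw [h] <;> norm_num
    · have h1 := hdeg w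
      have h2 := ho2 w
      have h3 := ho1 w
      try simp only at h3
      rw [if_pos (hroot w hw)] at h1 h3
      refine ⟨_, HS.mix (n := t w) (a := out w) (by omega) (d := 2) (e := -4)
        (by omega) (by omega), ?_⟩
      rw [hf3, hroot w hw]
      have h6 : ((H.neighborSet w).ncard : ℤ) = 3 - t w := by omega
      have h7 : ((F.neighborSet w).ncard : ℤ) = 2 - out w := by omega
      rw [h6, h7]
      ring

theorem BR_step [Fintype V] {m : ℕ} (hm : 2 ≤ m) (hP : PR V m) : BR V (m + 4) := by
  classical
  intro H hbr t c hdeg hc huniq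
  apply exists_glue (Good H t c)
  intro v0
  have hsec := fun (D : Set V) => sec_bridgeless hbr D
  -- the root of the component
  obtain ⟨y, hy1, hy2⟩ : ∃ y : Option V, (∀ v, y = some v → H.Reachable v0 v ∧ c v ≠ 0) ∧
      ∀ v, H.Reachable v0 v → c v ≠ 0 → y = some v := by
    by_cases hroot : ∃ x, H.Reachable v0 x ∧ c x ≠ 0
    · obtain ⟨x, hx1, hx2⟩ := hroot
      refine ⟨some x, ?_, ?_⟩
      · intro v hv
        have hv' : x = v := Option.some.inj hv
        subst hv'
        exact ⟨hx1, hx2⟩
      · intro v hv1 hv2
        rw [huniq x v hx2 hv2 (hx1.symm.trans hv1)]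
    · push Not at hroot
      refine ⟨none, by simp, ?_⟩
      intro v hv1 hv2
      exact absurd (hroot v hv1) hv2
  obtain ⟨F, out, hF, ho1, ho2, -, ho3⟩ := exists_factor (m := m) (k := 4) (H := H)
    (t := fun v => t v + (if c v = 0 then 0 else 1))
    (by omega) (by decide) (by norm_num) (by omega) (by
      intro v
      have := hdeg v
      try simp only
      convert this using 3) none y (Or.inl rfl)
    (fun D _ _ d h1 h2 => hsec D d h1 h2) (by intro v hv; simp at hv) (by
      intro v hv
      try simp only
      rw [if_neg (hy1 v hv).2]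
      omega)
  let c' : V → ℤ := fun v => if H.Reachable v0 v then c v else 0
  have hc'0 : ∀ v, c' v ≠ 0 → c' v = c v ∧ y = some v := by
    intro v hv
    simp only [c'] at hv ⊢
    by_cases h : H.Reachable v0 v
    · rw [if_pos h] at hv ⊢
      exact ⟨rfl, hy2 v h hv⟩
    · rw [if_neg h] at hv
      exact absurd rfl hv
  have hc'1 : ∀ v, H.Reachable v0 v → c' v = c v := by
    intro v hv
    simp only [c']
    rw [if_pos hv]
  let t2 : V → ℕ := fun v =>
    t v + (if c v = 0 then 0 else 1) - out v - (if c' v = 0 then 0 else 1)
  have ht2 : ∀ v, t2 v + out v + (if c' v = 0 then 0 else 1) =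
      t v + (if c v = 0 then 0 else 1) := by
    intro v
    have h1 := ho1 v
    try simp only at h1
    simp only [t2]
    by_cases h : c' v = 0
    · rw [if_pos h]
      omega
    · rw [if_neg h]
      have h2 := ho3 v (hc'0 v h).2
      try simp only at h2
      omega
  obtain ⟨f2, hf2, hg2⟩ := hP (H \ F) t2 c' (by
    intro v
    have h1 := hdeg v
    have h2 := ncard_sdiff hF v
    have h3 := ho2 v
    have h4 := ht2 v
    have h5 : t v + (if c v = 0 then 0 else 1) =
      t v + (open Classical in (if c v = 0 then 0 else 1)) := by congr!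
    have h6 : (if c' v = 0 then 0 else 1) =
      (open Classical in (if c' v = 0 then 0 else 1)) := by congr!
    omega) (by
    intro v hv
    rw [(hc'0 v hv).1]
    rw [(hc'0 v hv).1] at hv
    exact hc v hv) (by
    intro u v hu hv _
    have h1 := (hc'0 u hu).2
    have h2 := (hc'0 v hv).2
    exact Option.some.inj (h1.symm.trans h2))
  obtain ⟨f1, hf1, hv1, hg1⟩ := four_split ho2
  refine ⟨fun a b => f1 a b + f2 a b, add_isW hF hf1 hf2, ?_⟩
  intro w hw
  obtain ⟨h1, s2, h2, h3⟩ := hg2 w
  obtain ⟨s1, h4, h5⟩ := hg1 w
  refine ⟨?_, s1 + s2, ?_, ?_⟩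
  · intro b hb
    exact add_vals hf1 hf2 (P := fun z => z ≠ 0 ∧ |z| < 5) hb (hv1 w b) (h1 b)
  · have h6 := ht2 w
    rw [hc'1 w hw] at h6
    have h7 : t w = out w + t2 w := by omega
    rw [h7]
    exact HS.add h4 h2
  · rw [Finset.sum_add_distrib]
    rw [hc'1 w hw] at h3
    linarith

theorem PR_odd [Fintype V] (n : ℕ) : PR V (2 * n + 3) := by
  induction n using Nat.strong_induction_on with
  | _ n ih =>
    match n, ih with
    | 0, _ => exact ind_r BR_three
    | 1, _ => exact PR_five
    | n + 2, ih =>
      have h1 := ih n (by omega)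
      have h2 := BR_step (m := 2 * n + 3) (by omega) h1
      exact ind_r h2

/-- even degrees -/
def ER (V : Type) [Fintype V] (r : ℕ) : Prop :=
  ∀ (G : SimpleGraph V), (∀ v, (G.neighborSet v).ncard = r) →
    ∃ f, IsW G f ∧ (∀ a b, G.Adj a b → f a b ≠ 0 ∧ |f a b| < 5) ∧ ∀ v, ∑ w, f v w = 0

theorem even_factor [Fintype V] {G : SimpleGraph V} {m k : ℕ} (hm : 1 ≤ m) (hk : Even k)
    (hme : Even m) (hk1 : 1 ≤ k) (hkm : k ≤ 2 * m) (hG : ∀ v, (G.neighborSet v).ncard = m + k) :
    ∃ F ≤ G, ∀ v, (F.neighborSet v).ncard = k := by
  obtain ⟨F, out, hF, ho1, ho2, -, -⟩ := exists_factor (m := m) (k := k) (H := G)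
    (t := fun _ => 0) hm hk hk1 hkm (by intro v; rw [hG v]; rfl) none none (Or.inl rfl)
    (by
      intro D _ _ d h1 h2
      refine sec_even D ?_ d h1 h2
      intro v _
      rw [hG v]
      exact hme.add hk) (by intro v hv; simp at hv) (by intro v hv; simp at hv)
  refine ⟨F, hF, fun v => ?_⟩
  have h1 := ho1 v
  have h2 := ho2 v
  try simp only at h1
  omega

theorem ER_four [Fintype V] : ER V 4 := by
  intro G hG
  obtain ⟨F, hF, hF2⟩ := even_factor (m := 2) (k := 2) (by norm_num) (by decide) (by decide)
    (by norm_num) (by norm_num) hG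
  obtain ⟨f, hf1, hf2, hf3⟩ := two_values hF 1 (-1)
  refine ⟨f, hf1, ?_, ?_⟩
  · intro a b hab
    rcases hf2 a b hab with h | h <;> rw [h] <;> norm_num
  · intro v
    rw [hf3, hF2, hG]
    norm_num

theorem ER_six [Fintype V] : ER V 6 := by
  intro G hG
  obtain ⟨F, hF, hF2⟩ := even_factor (m := 4) (k := 2) (by norm_num) (by decide) (by decide)
    (by norm_num) (by norm_num) hG
  obtain ⟨f, hf1, hf2, hf3⟩ := two_values hF 2 (-1)
  refine ⟨f, hf1, ?_, ?_⟩
  · intro a b hab
    rcases hf2 a b hab with h | h <;> rw [h] <;> norm_num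
  · intro v
    rw [hf3, hF2, hG]
    norm_num

theorem ER_step [Fintype V] {m : ℕ} (hm : 2 ≤ m) (hme : Even m) (h : ER V m) :
    ER V (m + 4) := by
  intro G hG
  obtain ⟨F, hF, hF2⟩ := even_factor (m := m) (k := 4) (by omega) (by decide) hme
    (by norm_num) (by omega) hG
  obtain ⟨f1, hf1, hv1, hs1⟩ := ER_four F hF2
  obtain ⟨f2, hf2, hv2, hs2⟩ := h (G \ F) (by
    intro v
    have h1 := ncard_sdiff hF v
    have h2 := hF2 v
    have h3 := hG v
    omega)
  refine ⟨fun a b => f1 a b + f2 a b, add_isW hF hf1 hf2, ?_, ?_⟩
  · intro a b hab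
    exact add_vals hf1 hf2 (P := fun z => z ≠ 0 ∧ |z| < 5) hab (hv1 a b) (hv2 a b)
  · intro v
    rw [Finset.sum_add_distrib, hs1, hs2, add_zero]

theorem ER_even [Fintype V] (n : ℕ) : ER V (2 * n + 4) := by
  induction n using Nat.strong_induction_on with
  | _ n ih =>
    match n, ih with
    | 0, _ => exact ER_four
    | 1, _ => exact ER_six
    | n + 2, ih =>
      exact ER_step (m := 2 * n + 4) (by omega) ⟨n + 2, by ring⟩ (ih n (by omega))

/-- **Zero-sum 5-flows in regular graphs.** -/
theorem zero_sum [Fintype V] [DecidableEq V] (G : SimpleGraph V) [DecidableRel G.Adj]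
    (r : ℕ) (hr : 3 ≤ r) (hG : G.IsRegularOfDegree r) :
    ∃ f : Sym2 V → ℤ, (∀ e ∈ G.edgeSet, f e ≠ 0 ∧ |f e| < 5) ∧
      ∀ v : V, ∑ w ∈ G.neighborFinset v, f s(v, w) = 0 := by
  have hG' : ∀ v, (G.neighborSet v).ncard = r := by
    intro v
    have h1 := hG v
    rwa [← card_neighborFinset_eq_degree, ← Set.ncard_coe_finset, coe_neighborFinset] at h1
  obtain ⟨f, hf, hv, hs⟩ : ∃ f, IsW G f ∧ (∀ a b, G.Adj a b → f a b ≠ 0 ∧ |f a b| < 5) ∧
      ∀ v, ∑ w, f v w = 0 := by
    rcases Nat.even_or_odd r with ⟨n, hn⟩ | ⟨n, hn⟩
    · have h1 := ER_even (V := V) (n - 2) G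
      have h2 : 2 * (n - 2) + 4 = r := by omega
      rw [h2] at h1
      exact h1 hG'
    · have h1 := PR_odd (V := V) (n - 1)
      have h2 : 2 * (n - 1) + 3 = r := by omega
      rw [h2] at h1
      obtain ⟨f, hf, hg⟩ := h1 G (fun _ => 0) (fun _ => 0) (by intro v; simp [hG' v])
        (by intro v hv; exact absurd rfl hv) (by intro u v hu; exact absurd rfl hu)
      refine ⟨f, hf, fun a b hab => (hg a).1 b hab, fun v => ?_⟩
      obtain ⟨-, s, hs, hsum⟩ := hg v
      have hs0 : s = 0 := hs
      rw [hs0] at hsum
      linarith
  refine ⟨Sym2.lift ⟨f, fun a b => hf.symm a b⟩, ?_, ?_⟩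
  · intro e he
    induction e with
    | h a b => exact hv a b he
  · intro v
    have h1 : ∑ w ∈ G.neighborFinset v, f v w = ∑ w, f v w := by
      apply Finset.sum_subset (Finset.subset_univ _)
      intro w _ hw
      rw [mem_neighborFinset] at hw
      exact hf.supp v w hw
    simp only [Sym2.lift_mk]
    rw [h1]
    exact hs v

end Pool.Agent.H567R3.ZG
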