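import Pool.Agent.Helper96.TwoFactor.Tutte

/-!
# A barrier argument for partial `k`-factors with half edges, in `(m + k)`-regular graphs with
half edges.  `fr` : half edges forced into the factor, `ex` : half edges excluded from the factor.
-/

set_option autoImplicit false
set_option linter.deprecated false

namespace Pool.Agent.H567R3.ZG

open SimpleGraph Pool.Agent.Helper96.TwoFactor

variable {V : Type} (m : ℕ) (H : SimpleGraph V) (t : V → ℕ) (fr ex : (Σ v, Fin (t v)) → Prop)

/-- ports: darts of `H` and half edges -/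
abbrev Port := H.Dart ⊕ (Σ v, Fin (t v))

/-- vertices of the gadget graph -/
abbrev GW := Port H t ⊕ (V × Fin m)

/-- adjacency in the gadget graph -/
def gadj : GW m H t → GW m H t → Prop
  | .inl (.inl d), .inl (.inl e) => e = d.symm
  | .inl (.inl _), .inl (.inr _) => False
  | .inl (.inr _), .inl (.inl _) => False
  | .inl (.inr q), .inl (.inr r) => q ≠ r ∧ ¬ ex q ∧ ¬ ex r
  | .inl (.inl d), .inr c => d.fst = c.1
  | .inr c, .inl (.inl d) => d.fst = c.1
  | .inl (.inr q), .inr c => q.1 = c.1 ∧ ¬ fr q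
  | .inr c, .inl (.inr q) => q.1 = c.1 ∧ ¬ fr q
  | .inr _, .inr _ => False

/-- the gadget graph -/
def gad : SimpleGraph (GW m H t) where
  Adj := gadj m H t fr ex
  symm := ⟨by
    rintro ((d | q) | c) ((e | r) | c') h
    · simp only [gadj] at h ⊢; rw [h, Dart.symm_symm]
    · exact h
    · exact h
    · exact h
    · exact ⟨Ne.symm h.1, h.2.2, h.2.1⟩
    · exact h
    · exact h
    · exact h
    · exact h⟩
  loopless := ⟨by
    rintro ((d | q) | c) h
    · exact d.symm_ne h.symm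
    · exact h.1 rfl
    · exact h⟩

variable {m H t fr ex}

@[simp] lemma gad_dd {d e : H.Dart} : (gad m H t fr ex).Adj (.inl (.inl d)) (.inl (.inl e)) ↔ e = d.symm :=
  Iff.rfl
@[simp] lemma gad_dq {d : H.Dart} {q : Σ v, Fin (t v)} :
    (gad m H t fr ex).Adj (.inl (.inl d)) (.inl (.inr q)) ↔ False := Iff.rfl
@[simp] lemma gad_qd {d : H.Dart} {q : Σ v, Fin (t v)} :
    (gad m H t fr ex).Adj (.inl (.inr q)) (.inl (.inl d)) ↔ False := Iff.rfl
@[simp] lemma gad_qq {q r : Σ v, Fin (t v)} :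
    (gad m H t fr ex).Adj (.inl (.inr q)) (.inl (.inr r)) ↔ q ≠ r ∧ ¬ ex q ∧ ¬ ex r := Iff.rfl
@[simp] lemma gad_dc {d : H.Dart} {c : V × Fin m} :
    (gad m H t fr ex).Adj (.inl (.inl d)) (.inr c) ↔ d.fst = c.1 := Iff.rfl
@[simp] lemma gad_cd {d : H.Dart} {c : V × Fin m} :
    (gad m H t fr ex).Adj (.inr c) (.inl (.inl d)) ↔ d.fst = c.1 := Iff.rfl
@[simp] lemma gad_qc {q : Σ v, Fin (t v)} {c : V × Fin m} :
    (gad m H t fr ex).Adj (.inl (.inr q)) (.inr c) ↔ q.1 = c.1 ∧ ¬ fr q := Iff.rfl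
@[simp] lemma gad_cq {q : Σ v, Fin (t v)} {c : V × Fin m} :
    (gad m H t fr ex).Adj (.inr c) (.inl (.inr q)) ↔ q.1 = c.1 ∧ ¬ fr q := Iff.rfl
@[simp] lemma gad_cc {c c' : V × Fin m} :
    (gad m H t fr ex).Adj (.inr c) (.inr c') ↔ False := Iff.rfl

/-- a port adjacent to the cores of `v` -/
def PortOf (fr : (Σ v, Fin (t v)) → Prop) (v : V) : Port H t → Prop
  | .inl d => d.fst = v
  | .inr q => q.1 = v ∧ ¬ fr q

lemma gad_pc {p : Port H t} {c : V × Fin m} :
    (gad m H t fr ex).Adj (.inl p) (.inr c) ↔ PortOf fr c.1 p := by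
  rcases p with d | q <;> rfl

lemma gad_cp {p : Port H t} {c : V × Fin m} :
    (gad m H t fr ex).Adj (.inr c) (.inl p) ↔ PortOf fr c.1 p := by
  rcases p with d | q <;> rfl

lemma PortOf.unique {v w : V} {p : Port H t} (h : PortOf fr v p) (h' : PortOf fr w p) : v = w := by
  rcases p with d | q
  · exact h.symm.trans h'
  · exact h.1.symm.trans h'.1

/-- In a minimal barrier the neighbours of a nonempty `X ⊆ U` cannot be covered by few
components. -/
lemma few {W : Type} [Finite W] {K : SimpleGraph W} {U : Set W}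
    (h1 : U.ncard + 2 ≤ {Z | OddComp K U Z}.ncard)
    (h2 : ∀ U' : Set W, U' ⊂ U → {Z | OddComp K U' Z}.ncard ≤ U'.ncard)
    {X : Set W} (hX : X ⊆ U) (hne : X.Nonempty) (R : Finset W)
    (hR : ∀ x ∈ X, ∀ z, z ∉ U → K.Adj x z → ∃ r ∈ R, (off K U).Reachable r z) :
    X.ncard + 2 ≤ R.card := by
  classical
  refine (adj_oddComp_ge h1 h2 hX hne).trans ?_
  rw [Set.ncard_eq_toFinset_card _ (Set.toFinite _)]
  have hch : ∀ Z : Set W, (OddComp K U Z ∧ ∃ x ∈ X, ∃ z ∈ Z, K.Adj x z) → ∃ r, r ∈ R ∧ r ∈ Z := by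
    rintro Z ⟨hZ, x, hx, z, hz, hadj⟩
    obtain ⟨r, hr, hrz⟩ := hR x hx z (hZ.notMem hz) hadj
    exact ⟨r, hr, (hZ.reach hz).2 hrz.symm⟩
  have hW : Nonempty W := ⟨hne.some⟩
  choose! g hg1 hg2 using hch
  refine Finset.card_le_card_of_injOn g ?_ ?_
  · intro Z hZ
    have : OddComp K U Z ∧ ∃ x ∈ X, ∃ z ∈ Z, K.Adj x z := by simpa using hZ
    exact hg1 Z this
  · intro Z hZ Z' hZ' heq
    have h3 : OddComp K U Z ∧ ∃ x ∈ X, ∃ z ∈ Z, K.Adj x z := by simpa using hZ
    have h4 : OddComp K U Z' ∧ ∃ x ∈ X, ∃ z ∈ Z', K.Adj x z := by simpa using hZ'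
    exact h3.1.eq_of_mem h4.1 (hg2 Z h3) (heq ▸ hg2 Z' h4)

/-- The data of a barrier in the gadget graph after the classification of the vertices. -/
structure Barrier (m : ℕ) (H : SimpleGraph V) (t : V → ℕ) (fr : (Σ v, Fin (t v)) → Prop)
    (U : Set (GW m H t)) (S T : Set V) : Prop where
  disj : ∀ v, v ∈ S → v ∈ T → False
  core : ∀ v j, Sum.inr (v, j) ∈ U ↔ v ∈ T
  port : ∀ v (p : Port H t), PortOf fr v p → (Sum.inl p ∈ U ↔ v ∈ S)
  forced : ∀ q, fr q → (Sum.inl (Sum.inr q) : GW m H t) ∉ U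

theorem exists_barrier [Finite V] (hm : 1 ≤ m)
    (hev : Even (Nat.card (GW m H t)))
    (hno : ¬ ∃ M : Subgraph (gad m H t fr ex), M.IsPerfectMatching) :
    ∃ (U : Set (GW m H t)) (S T : Set V),
      U.ncard + 2 ≤ {Z | OddComp (gad m H t fr ex) U Z}.ncard ∧ Barrier m H t fr U S T := by
  classical
  have := Fintype.ofFinite V
  have hFD : Fintype H.Dart := Fintype.ofFinite _
  obtain ⟨U, hU1, hU2⟩ := exists_min_barrier (H := gad m H t fr ex) hev hno
  -- all half edge ports outside `U` which are not excluded are in one component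
  have hK : ∃ R : Finset (GW m H t), R.card ≤ 1 ∧ ∀ q, ¬ ex q →
      (Sum.inl (Sum.inr q) : GW m H t) ∉ U →
      ∃ r ∈ R, (off (gad m H t fr ex) U).Reachable r (Sum.inl (Sum.inr q)) := by
    by_cases h : ∃ q0, ¬ ex q0 ∧ (Sum.inl (Sum.inr q0) : GW m H t) ∉ U
    · obtain ⟨q0, hx0, h0⟩ := h
      refine ⟨{Sum.inl (Sum.inr q0)}, by simp, ?_⟩
      intro q hqx hq
      refine ⟨_, Finset.mem_singleton_self _, ?_⟩
      by_cases hqq : q0 = q
      · rw [hqq]
      · exact Adj.reachable ⟨⟨hqq, hx0, hqx⟩, h0, hq⟩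
    · push Not at h
      exact ⟨∅, by simp, fun q hqx hq => absurd (h q hqx) hq⟩
  obtain ⟨RK, hRK1, hRK2⟩ := hK
  -- forced ports are not in `U`
  have F1 : ∀ q, fr q → (Sum.inl (Sum.inr q) : GW m H t) ∉ U := by
    intro q hq hqU
    have h3 := few hU1 hU2 (X := {Sum.inl (Sum.inr q)}) (by simpa using hqU)
      (Set.singleton_nonempty _) RK (by
        intro x hx z hz hadj
        rw [Set.mem_singleton_iff] at hx
        subst hx
        rcases z with (d | r) | c
        · exact absurd hadj (by simp)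
        · exact hRK2 r (gad_qq.1 hadj).2.2 hz
        · exact absurd hq (gad_qc.1 hadj).2)
    rw [Set.ncard_singleton] at h3
    omega
  -- the neighbours of a port which are not cores
  have N1 : ∀ p : Port H t, ∃ R : Finset (GW m H t), R.card ≤ 1 ∧ ∀ p' : Port H t,
      (Sum.inl p' : GW m H t) ∉ U → (gad m H t fr ex).Adj (Sum.inl p) (Sum.inl p') →
      ∃ r ∈ R, (off (gad m H t fr ex) U).Reachable r (Sum.inl p') := by
    rintro (d | q)
    · refine ⟨{Sum.inl (Sum.inl d.symm)}, by simp, ?_⟩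
      rintro (e | r) _ hadj
      · rw [gad_dd] at hadj
        subst hadj
        exact ⟨_, Finset.mem_singleton_self _, Reachable.refl _⟩
      · exact absurd hadj (by simp)
    · refine ⟨RK, hRK1, ?_⟩
      rintro (e | r) hU hadj
      · exact absurd hadj (by simp)
      · exact hRK2 r (gad_qq.1 hadj).2.2 hU
  -- if a port of `v` is in `U` then all are
  have A1 : ∀ (v : V) (p p' : Port H t), PortOf fr v p → PortOf fr v p' →
      (Sum.inl p : GW m H t) ∈ U → (Sum.inl p' : GW m H t) ∈ U := by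
    intro v p p' hp hp' hpU
    by_contra hp'U
    obtain ⟨R, hR1, hR2⟩ := N1 p
    have h3 := few hU1 hU2 (X := {Sum.inl p}) (by simpa using hpU)
      (Set.singleton_nonempty _) (insert (Sum.inl p') R) (by
        intro x hx z hz hadj
        rw [Set.mem_singleton_iff] at hx
        subst hx
        rcases z with p'' | c
        · obtain ⟨r, hr, hr2⟩ := hR2 p'' hz hadj
          exact ⟨r, Finset.mem_insert_of_mem hr, hr2⟩
        · rw [gad_pc] at hadj
          have hc : c.1 = v := hadj.unique hp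
          refine ⟨_, Finset.mem_insert_self _ _, Adj.reachable ⟨?_, hp'U, hz⟩⟩
          rw [gad_pc, hc]
          exact hp')
    rw [Set.ncard_singleton] at h3
    have := Finset.card_insert_le (Sum.inl p' : GW m H t) R
    omega
  -- if a core is in `U` then all cores of the vertex are
  have A3 : ∀ (v : V) (j j' : Fin m), (Sum.inr (v, j) : GW m H t) ∈ U →
      (Sum.inr (v, j') : GW m H t) ∈ U := by
    intro v j j' hj
    by_contra hj'
    have h3 := few hU1 hU2 (X := {Sum.inr (v, j)}) (by simpa using hj)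
      (Set.singleton_nonempty _) ({Sum.inr (v, j')}) (by
        intro x hx z hz hadj
        rw [Set.mem_singleton_iff] at hx
        subst hx
        rcases z with p'' | c
        · refine ⟨_, Finset.mem_singleton_self _, Adj.reachable ⟨?_, hj', hz⟩⟩
          rw [gad_cp] at hadj ⊢
          exact hadj
        · exact absurd hadj (by simp))
    rw [Set.ncard_singleton, Finset.card_singleton] at h3
    omega
  -- if a port of `v` is in `U` then no core is
  have A2 : ∀ (v : V) (p : Port H t) (j : Fin m), PortOf fr v p → (Sum.inl p : GW m H t) ∈ U →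
      (Sum.inr (v, j) : GW m H t) ∉ U := by
    intro v p j hp hpU hj
    obtain ⟨R, hR1, hR2⟩ := N1 p
    have h3 := few hU1 hU2 (X := {Sum.inl p}) (by simpa using hpU)
      (Set.singleton_nonempty _) R (by
        intro x hx z hz hadj
        rw [Set.mem_singleton_iff] at hx
        subst hx
        rcases z with p'' | ⟨w, i⟩
        · obtain ⟨r, hr, hr2⟩ := hR2 p'' hz hadj
          exact ⟨r, hr, hr2⟩
        · rw [gad_pc] at hadj
          have hc : w = v := hadj.unique hp
          subst hc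
          exact absurd (A3 w j i hj) hz)
    rw [Set.ncard_singleton] at h3
    omega
  refine ⟨U, {v | ∃ p : Port H t, PortOf fr v p ∧ (Sum.inl p : GW m H t) ∈ U},
    {v | (Sum.inr (v, ⟨0, hm⟩) : GW m H t) ∈ U}, hU1, ?_, ?_, ?_, F1⟩
  · rintro v ⟨p, hp, hpU⟩ hv
    exact A2 v p ⟨0, hm⟩ hp hpU hv
  · intro v j
    exact ⟨fun h => A3 v j ⟨0, hm⟩ h, fun h => A3 v ⟨0, hm⟩ j h⟩
  · intro v p hp
    constructor
    · intro h
      exact ⟨p, hp, h⟩
    · rintro ⟨p', hp', hpU⟩
      exact A1 v p' p hp' hp hpU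

end Pool.Agent.H567R3.ZG
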