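import Pool.Agent.H567R3.ZS.Main
import Pool.Agent.H567R3.ZG.Factor

set_option autoImplicit false
set_option linter.deprecated false

namespace Pool.Agent.H567R3.ZG

open SimpleGraph Pool.Agent.H567R3.ZS

variable {V : Type}

/-- the flow statement in degree `r`, with half edges and roots -/
def PR (V : Type) [Fintype V] (r : ℕ) : Prop :=
  ∀ (H : SimpleGraph V) (t : V → ℕ) (c : V → ℤ),
    (∀ v, (H.neighborSet v).ncard +
      (t v + (open Classical in (if c v = 0 then 0 else 1))) = r) →
    (∀ v, c v ≠ 0 → c v = 2 ∨ c v = -2 ∨ c v = 4 ∨ c v = -4) →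
    (∀ u v, c u ≠ 0 → c v ≠ 0 → H.Reachable u v → u = v) →
    ∃ f, IsW H f ∧ ∀ v, Good H t c v (f v)

/-- the same for bridgeless graphs -/
def BR (V : Type) [Fintype V] (r : ℕ) : Prop :=
  ∀ (H : SimpleGraph V), (∀ u v, H.Adj u v → ¬ H.IsBridge s(u, v)) → ∀ (t : V → ℕ) (c : V → ℤ),
    (∀ v, (H.neighborSet v).ncard +
      (t v + (open Classical in (if c v = 0 then 0 else 1))) = r) →
    (∀ v, c v ≠ 0 → c v = 2 ∨ c v = -2 ∨ c v = 4 ∨ c v = -4) →
    (∀ u v, c u ≠ 0 → c v ≠ 0 → H.Reachable u v → u = v) →
    ∃ f, IsW H f ∧ ∀ v, Good H t c v (f v)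

theorem ind_aux [Fintype V] {r : ℕ} (hbase : BR V r) (n : ℕ) :
    ∀ (H : SimpleGraph V), H.edgeSet.ncard < n →
    ∀ (t : V → ℕ) (c : V → ℤ),
    (∀ v, (H.neighborSet v).ncard +
      (t v + (open Classical in (if c v = 0 then 0 else 1))) = r) →
    (∀ v, c v ≠ 0 → c v = 2 ∨ c v = -2 ∨ c v = 4 ∨ c v = -4) →
    (∀ u v, c u ≠ 0 → c v ≠ 0 → H.Reachable u v → u = v) →
    ∃ f, IsW H f ∧ ∀ v, Good H t c v (f v) := by
  classical
  induction n with
  | zero => intro H h; omega
  | succ n ih =>
    intro H hn t c hdeg hc huniq
    by_cases hbr : ∀ u v, H.Adj u v → ¬ H.IsBridge s(u, v)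
    · exact hbase H hbr t c hdeg hc huniq
    · obtain ⟨u, v, huv, hnr, hroot⟩ : ∃ u v, H.Adj u v ∧
          ¬ (H.deleteEdges {s(u, v)}).Reachable u v ∧
          ∀ w, (H.deleteEdges {s(u, v)}).Reachable v w → c w = 0 := by
        push Not at hbr
        obtain ⟨u, v, huv, hb⟩ := hbr
        rw [isBridge_iff] at hb
        by_cases hr : ∀ w, (H.deleteEdges {s(u, v)}).Reachable v w → c w = 0
        · exact ⟨u, v, huv, hb, hr⟩
        · push Not at hr
          obtain ⟨w, hw, hcw⟩ := hr
          refine ⟨v, u, huv.symm, ?_, ?_⟩
          · rw [Sym2.eq_swap]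
            exact fun h => hb h.symm
          · intro z hz
            rw [Sym2.eq_swap] at hz
            by_contra hcz
            have hle : H.deleteEdges {s(u, v)} ≤ H := deleteEdges_le _
            have h1 : H.Reachable w z :=
              (hw.symm.mono hle).trans (huv.symm.reachable.trans (hz.mono hle))
            have h2 := huniq w z hcw hcz h1
            subst h2
            exact hb (hz.trans hw.symm)
      have hne := huv.ne
      have hlt := del_ncard huv
      obtain ⟨hd1, hd2, hd3⟩ := del_deg huv
      have hle : H.deleteEdges {s(u, v)} ≤ H := deleteEdges_le _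
      set H' := H.deleteEdges {s(u, v)} with hH'
      have hadj' : ∀ a b, H'.Adj a b ↔ H.Adj a b ∧ s(a, b) ≠ s(u, v) := fun a b => del_adj
      have hcv : c v = 0 := hroot v (Reachable.refl _)
      obtain ⟨f1, hf1, hg1⟩ := ih H' (by omega)
        (fun w => t w + (if w = u then 1 else 0) + (if w = v then 1 else 0)) c (by
          intro w
          have h1 := hdeg w
          try simp only
          by_cases hwu : w = u
          · subst hwu
            rw [if_pos rfl, if_neg hne]
            omega
          · by_cases hwv : w = v
            · subst hwv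
              rw [if_neg hwu, if_pos rfl]
              omega
            · rw [if_neg hwu, if_neg hwv]
              have := hd3 w hwu hwv
              omega) hc (fun a b ha hb hr => huniq a b ha hb (hr.mono hle))
      obtain ⟨hu1, s1u, hs1u, hsum1u⟩ := hg1 u
      beta_reduce at hs1u
      rw [if_pos rfl, if_neg hne, add_zero] at hs1u
      obtain ⟨d, hd, hs1u'⟩ := hs1u
      obtain ⟨f2, hf2, hg2⟩ := ih H' (by omega)
        (fun w => t w + (if w = u then 1 else 0)) (fun w => if w = v then d else c w) (by
          intro w
          have h1 := hdeg w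
          try simp only
          by_cases hwu : w = u
          · subst hwu
            rw [if_pos rfl, if_neg hne]
            omega
          · by_cases hwv : w = v
            · subst hwv
              rw [if_neg hwu, if_pos rfl]
              rw [hcv, if_pos rfl] at h1
              rw [if_neg (by omega : ¬ d = 0)]
              omega
            · rw [if_neg hwu, if_neg hwv]
              have := hd3 w hwu hwv
              omega) (by
          intro w hw
          by_cases hwv : w = v
          · simp only [if_pos hwv]
            omega
          · simp only [if_neg hwv] at hw ⊢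
            exact hc w hw) (by
          intro a b ha hb hr
          by_cases hav : a = v
          · by_cases hbv : b = v
            · rw [hav, hbv]
            · simp only [if_neg hbv] at hb
              exact absurd (hroot b (hav ▸ hr)) hb
          · by_cases hbv : b = v
            · simp only [if_neg hav] at ha
              exact absurd (hroot a (hbv ▸ hr.symm)) ha
            · simp only [if_neg hav] at ha
              simp only [if_neg hbv] at hb
              exact huniq a b ha hb (hr.mono hle))
      -- the glued function
      let g : V → V → ℤ := fun a b => if H'.Reachable v a then f2 a b else f1 a b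
      have hg : IsW H' g := by
        refine ⟨fun a b => ?_, fun a b hab => ?_⟩
        · by_cases hab : H'.Adj a b
          · have h5 : H'.Reachable v a ↔ H'.Reachable v b :=
              ⟨fun h => h.trans hab.reachable, fun h => h.trans hab.symm.reachable⟩
            simp only [g, h5]
            rw [hf1.symm, hf2.symm]
          · have hba : ¬ H'.Adj b a := fun h => hab h.symm
            simp only [g]
            rw [hf1.supp _ _ hab, hf2.supp _ _ hab, hf1.supp _ _ hba, hf2.supp _ _ hba]
            simp
        · simp only [g]
          rw [hf1.supp _ _ hab, hf2.supp _ _ hab]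
          simp
      refine ⟨fun a b => g a b + ew u v d a b, ⟨fun a b => ?_, fun a b hab => ?_⟩, ?_⟩
      · rw [hg.symm, (ew_isW huv d).symm]
      · rw [hg.supp _ _ (fun h => hab (hle h)), (ew_isW huv d).supp _ _ hab]
        simp
      · intro w
        refine ⟨fun b hb => ?_, ?_⟩
        · beta_reduce
          by_cases he : s(w, b) = s(u, v)
          · have h1 : ¬ H'.Adj w b := by
              rw [hadj']
              tauto
            rw [hg.supp _ _ h1]
            unfold ew
            rw [if_pos he, zero_add]
            rcases hd with rfl | rfl | rfl | rfl <;> norm_num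
          · have h1 : H'.Adj w b := (hadj' w b).2 ⟨hb, he⟩
            have h2 : ew u v d w b = 0 := by
              unfold ew
              rw [if_neg he]
            rw [h2, add_zero]
            simp only [g]
            split_ifs
            · exact (hg2 w).1 b h1
            · exact (hg1 w).1 b h1
        · rw [Finset.sum_add_distrib]
          by_cases hK : H'.Reachable v w
          · have hsg : ∑ b, g w b = ∑ b, f2 w b := by
              apply Finset.sum_congr rfl
              intro b _
              simp only [g]
              rw [if_pos hK]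
            rw [hsg]
            have hwu : w ≠ u := by
              rintro rfl
              exact hnr hK.symm
            obtain ⟨-, s, hs, hsum⟩ := hg2 w
            beta_reduce at hs hsum
            rw [if_neg hwu, add_zero] at hs
            refine ⟨s, hs, ?_⟩
            by_cases hwv : w = v
            · subst hwv
              rw [if_pos rfl] at hsum
              rcases ew_sum hne d w with ⟨h6, _⟩ | ⟨_, _, h7⟩
              · rw [h6, hcv]
                linarith
              · exact absurd rfl h7
            · rw [if_neg hwv] at hsum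
              rcases ew_sum hne d w with ⟨_, h7⟩ | ⟨h6, _⟩
              · rcases h7 with h7 | h7
                · exact absurd h7 hwu
                · exact absurd h7 hwv
              · rw [h6]
                linarith
          · have hsg : ∑ b, g w b = ∑ b, f1 w b := by
              apply Finset.sum_congr rfl
              intro b _
              simp only [g]
              rw [if_neg hK]
            rw [hsg]
            have hwv : w ≠ v := by
              rintro rfl
              exact hK (Reachable.refl _)
            by_cases hwu : w = u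
            · subst hwu
              refine ⟨s1u - d, hs1u', ?_⟩
              rcases ew_sum hne d w with ⟨h6, _⟩ | ⟨_, h7, _⟩
              · rw [h6]
                linarith
              · exact absurd rfl h7
            · obtain ⟨-, s, hs, hsum⟩ := hg1 w
              beta_reduce at hs
              rw [if_neg hwu, if_neg hwv, add_zero, add_zero] at hs
              refine ⟨s, hs, ?_⟩
              rcases ew_sum hne d w with ⟨_, h7⟩ | ⟨h6, _⟩
              · rcases h7 with h7 | h7
                · exact absurd h7 hwu
                · exact absurd h7 hwv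
              · rw [h6]
                linarith

theorem ind_r [Fintype V] {r : ℕ} (hbase : BR V r) : PR V r := fun H t c h1 h2 h3 =>
  ind_aux hbase (H.edgeSet.ncard + 1) H (Nat.lt_succ_self _) t c h1 h2 h3

theorem PR_five [Fintype V] : PR V 5 := fun H t c h1 h2 h3 =>
  main_ind (H.edgeSet.ncard + 1) H (Nat.lt_succ_self _) t c h1 h2 h3

/-! ### values -/

theorem HS.add {a : ℕ} : ∀ {b : ℕ} {s s' : ℤ}, HS a s → HS b s' → HS (a + b) (s + s') := by
  induction a with
  | zero =>
    intro b s s' h h'
    have h0 : s = 0 := h
    rw [h0, zero_add, zero_add]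
    exact h'
  | succ a ih =>
    rintro b s s' ⟨d, hd, h⟩ h'
    have h1 : a + 1 + b = (a + b) + 1 := by ring
    rw [h1]
    refine ⟨d, hd, ?_⟩
    have h2 := ih h h'
    convert h2 using 1
    ring

theorem HS.rep (n : ℕ) {d : ℤ} (hd : d = 2 ∨ d = -2 ∨ d = 4 ∨ d = -4) :
    HS n ((n : ℤ) * d) := by
  induction n with
  | zero => show ((0 : ℕ) : ℤ) * d = 0; simp
  | succ n ih =>
    refine ⟨d, hd, ?_⟩
    convert ih using 1
    push_cast
    ring

theorem HS.mix {n a : ℕ} (ha : a ≤ n) {d e : ℤ} (hd : d = 2 ∨ d = -2 ∨ d = 4 ∨ d = -4)
    (he : e = 2 ∨ e = -2 ∨ e = 4 ∨ e = -4) : HS n ((a : ℤ) * d + ((n : ℤ) - a) * e) := by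
  have h := HS.add (HS.rep a hd) (HS.rep (n - a) he)
  rw [Nat.add_sub_cancel' ha] at h
  convert h using 2
  rw [Nat.cast_sub ha]

/-- constant values on a factor and off it -/
theorem two_values [Fintype V] {H F : SimpleGraph V} (hF : F ≤ H) (a b : ℤ) :
    ∃ f, IsW H f ∧ (∀ u v, H.Adj u v → f u v = a ∨ f u v = b) ∧
      ∀ v, ∑ w, f v w = a * ((F.neighborSet v).ncard : ℤ) +
        b * (((H.neighborSet v).ncard : ℤ) - ((F.neighborSet v).ncard : ℤ)) := by
  classical
  refine ⟨fun u v => (if F.Adj u v then a - b else 0) + (if H.Adj u v then b else 0),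
    ⟨?_, ?_⟩, ?_, ?_⟩
  · intro u v
    simp only [H.adj_comm u v, F.adj_comm u v]
  · intro u v huv
    try simp only
    rw [if_neg huv, if_neg (fun h => huv (hF h))]
    simp
  · intro u v huv
    try simp only
    rw [if_pos huv]
    by_cases h : F.Adj u v
    · rw [if_pos h]; left; ring
    · rw [if_neg h]; right; ring
  · intro v
    try simp only
    rw [Finset.sum_add_distrib, ← Finset.sum_filter, ← Finset.sum_filter,
      Finset.sum_const, Finset.sum_const]
    have h1 : (Finset.univ.filter fun b => H.Adj v b).card = (H.neighborSet v).ncard := by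
      rw [← Set.ncard_coe_finset]
      congr 1
      ext b
      simp
    have h2 : (Finset.univ.filter fun b => F.Adj v b).card = (F.neighborSet v).ncard := by
      rw [← Set.ncard_coe_finset]
      congr 1
      ext b
      simp
    rw [h1, h2]
    simp only [nsmul_eq_mul]
    ring

/-- degrees in the complement of a factor -/
theorem ncard_sdiff [Finite V] {H F : SimpleGraph V} (hF : F ≤ H) (v : V) :
    ((H \ F).neighborSet v).ncard + (F.neighborSet v).ncard = (H.neighborSet v).ncard := by
  rw [← Set.ncard_union_eq]
  · congr 1
    ext w
    simp only [Set.mem_union, mem_neighborSet, sdiff_adj]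
    constructor
    · rintro (h | h)
      · exact h.1
      · exact hF h
    · intro h
      by_cases h' : F.Adj v w
      · exact Or.inr h'
      · exact Or.inl ⟨h, h'⟩
  · rw [Set.disjoint_left]
    intro w h1 h2
    rw [mem_neighborSet, sdiff_adj] at h1
    exact h1.2 h2

/-- sums of weights with disjoint supports -/
theorem add_isW {H F : SimpleGraph V} (hF : F ≤ H) {f g : V → V → ℤ} (hf : IsW F f)
    (hg : IsW (H \ F) g) : IsW H (fun a b => f a b + g a b) := by
  refine ⟨fun a b => ?_, fun a b hab => ?_⟩
  · rw [hf.symm, hg.symm]
  · rw [hf.supp a b (fun h => hab (hF h)), hg.supp a b (fun h => hab ((sdiff_le : H \ F ≤ H) h))]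
    simp

theorem add_vals {H F : SimpleGraph V} {f g : V → V → ℤ} (hf : IsW F f)
    (hg : IsW (H \ F) g) {P : ℤ → Prop} {a b : V} (hab : H.Adj a b)
    (h1 : F.Adj a b → P (f a b)) (h2 : (H \ F).Adj a b → P (g a b)) : P (f a b + g a b) := by
  by_cases h : F.Adj a b
  · have h3 : ¬ (H \ F).Adj a b := by
      rw [sdiff_adj]
      tauto
    rw [hg.supp a b h3, add_zero]
    exact h1 h
  · have h3 : (H \ F).Adj a b := by
      rw [sdiff_adj]
      exact ⟨hab, h⟩
    rw [hf.supp a b h, zero_add]
    exact h2 h3

/-- 4-regular graphs with half edges have signings with values `±2` -/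
theorem four_split [Fintype V] {F : SimpleGraph V} {o : V → ℕ}
    (hdeg : ∀ v, (F.neighborSet v).ncard + o v = 4) :
    ∃ f, IsW F f ∧ (∀ a b, F.Adj a b → f a b ≠ 0 ∧ |f a b| < 5) ∧
      ∀ v, ∃ s, HS (o v) s ∧ (∑ w, f v w) + s = 0 := by
  classical
  obtain ⟨F1, out, hF1, ho1, ho2, -, -⟩ := exists_factor (m := 2) (k := 2) (H := F) (t := o)
    (by norm_num) (by decide) (by norm_num) (by norm_num) hdeg none none (Or.inl rfl) (by
      intro D _ h2 d hd1 hd2
      refine sec_even D ?_ d hd1 hd2
      intro v hv
      have h3 : o v = 0 := by
        by_contra h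
        rcases h2 v hv h with h | h <;> simp at h
      have h4 := hdeg v
      rw [h3] at h4
      have h5 : (F.neighborSet v).ncard = 4 := by omega
      rw [h5]
      decide) (by intro v hv; simp at hv) (by intro v hv; simp at hv)
  obtain ⟨f, hf1, hf2, hf3⟩ := two_values hF1 2 (-2)
  refine ⟨f, hf1, ?_, ?_⟩
  · intro a b hab
    rcases hf2 a b hab with h | h <;> rw [h] <;> norm_num
  · intro v
    refine ⟨_, HS.mix (ho1 v) (d := 2) (e := -2) (by omega) (by omega), ?_⟩
    rw [hf3]
    have h1 := hdeg v
    have h2 := ho2 v
    have h3 : ((F.neighborSet v).ncard : ℤ) = 4 - o v := by omega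
    have h4 : ((F1.neighborSet v).ncard : ℤ) = 2 - out v := by omega
    rw [h3, h4]
    ring

end Pool.Agent.H567R3.ZG
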