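import Pool.Agent.H567R3.ZG.Count

set_option autoImplicit false
set_option linter.deprecated false

namespace Pool.Agent.H567R3.ZG

open SimpleGraph Pool.Agent.Helper96.TwoFactor

variable {V : Type} {m k : ℕ} {H : SimpleGraph V} {t : V → ℕ} {fr ex : (Σ v, Fin (t v)) → Prop}

lemma sum_darts [Fintype V] [DecidableRel H.Adj] (g : V → ℕ) :
    ∑ d : H.Dart, g d.fst = ∑ v, H.degree v * g v := by
  classical
  rw [← Finset.sum_fiberwise (s := Finset.univ) (g := fun d : H.Dart => d.fst)]
  apply Finset.sum_congr rfl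
  intro v _
  have h : ∀ d ∈ (Finset.univ : Finset H.Dart).filter (fun d => d.fst = v), g d.fst = g v := by
    intro d hd
    rw [Finset.mem_filter] at hd
    rw [hd.2]
  rw [Finset.sum_congr rfl h, Finset.sum_const, smul_eq_mul,
    ← H.dart_fst_fiber_card_eq_degree v]

lemma sum_darts_symm [Fintype V] [DecidableRel H.Adj] (g : V → ℕ) :
    ∑ d : H.Dart, g d.snd = ∑ d : H.Dart, g d.fst := by
  refine Finset.sum_nbij' (fun d => d.symm) (fun d => d.symm) ?_ ?_ ?_ ?_ ?_
  · intro d _; exact Finset.mem_univ _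
  · intro d _; exact Finset.mem_univ _
  · intro d _; exact d.symm_symm
  · intro d _; exact d.symm_symm
  · intro d _; rfl

lemma sum_fx [Fintype V] (P : (Σ v, Fin (t v)) → Prop) [DecidablePred P] :
    ∑ v, fx t P v = ((Finset.univ : Finset (Σ v, Fin (t v))).filter P).card := by
  classical
  unfold fx
  rw [Finset.card_filter, Fintype.sum_sigma]
  apply Finset.sum_congr rfl
  intro v _
  rw [Finset.card_filter]
  apply Finset.sum_congr rfl
  intro i _
  congr!

/-- the inequality at one vertex -/
lemma vertex_ineq {m k d t f g : ℕ} (hm : 1 ≤ m) (hk : 1 ≤ k) (hd : d + t = m + k)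
    (hf : f + g ≤ 1) (hft : f + g ≤ t) (S T : Prop) [Decidable S] [Decidable T]
    (hdj : S → T → False) :
    d * ((if T then m else 0) + (if S then k else 0)) + (if T then (m + k) * g else 0) +
      (if T then 0 else if S then m * (m + k) else (m + k - 1) * f) ≤
    (m + k) * (d * (if S then 1 else 0) + (t - f) * (if S then 1 else 0) +
        m * (if T then 1 else 0)) + (m + k - 1) * (f + g) := by
  obtain ⟨r, hr⟩ : ∃ r, m + k = r + 1 := ⟨m + k - 1, by omega⟩
  by_cases hT : T
  · have hS : ¬ S := fun h => hdj h hT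
    simp only [hT, hS, if_true, if_false]
    have h1 : g = 0 ∨ g = 1 := by omega
    rcases h1 with rfl | rfl
    · have h2 : d ≤ m + k := by omega
      have := Nat.mul_le_mul_right m h2
      simp only [add_zero, mul_zero, mul_one, zero_add]
      omega
    · have h2 : d + 1 ≤ m + k := by omega
      have h3 := Nat.mul_le_mul_right m h2
      rw [add_mul] at h3
      have h4 : f = 0 := by omega
      subst h4
      simp only [add_zero, mul_zero, mul_one, zero_add]
      omega
  · by_cases hS : S
    · simp only [hT, hS, if_true, if_false, add_zero, zero_add, mul_one, mul_zero]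
      have h1 : f = 0 ∨ f = 1 := by omega
      rcases h1 with rfl | rfl
      · have h2 : d * k ≤ (m + k) * k := Nat.mul_le_mul_right k (by omega)
        have h3 : (m + k) * (d + (t - 0)) = (m + k) * m + (m + k) * k := by
          rw [Nat.sub_zero, hd, mul_add]
        rw [h3, mul_comm m (m + k)]
        exact le_trans (by omega) (Nat.le_add_right _ _)
      · have h2 : (d + 1) * k ≤ (m + k) * k := Nat.mul_le_mul_right k (by omega)
        rw [add_mul] at h2
        have h4 : d + (t - 1) + 1 = m + k := by omega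
        have h3 : (m + k) * (d + (t - 1)) + (m + k) = (m + k) * m + (m + k) * k := by
          have : (m + k) * (d + (t - 1)) + (m + k) = (m + k) * (d + (t - 1) + 1) := by ring
          rw [this, h4, mul_add]
        have h5 : g = 0 := by omega
        subst h5
        rw [mul_comm m (m + k)]
        omega
    · simp only [hT, hS, if_false, mul_zero, add_zero, zero_add]
      exact Nat.mul_le_mul_left _ (by omega)

open Classical in
theorem total_le [Fintype V] [DecidableRel H.Adj] (hm : 1 ≤ m) (hk1 : 1 ≤ k)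
    {U : Set (GW m H t)} {S T : Set V}
    (hdeg : ∀ v, H.degree v + t v = m + k)
    (hone : ∀ q r, (fr q ∨ ex q) → (fr r ∨ ex r) → q = r) (hfe : ∀ q, fr q → ¬ ex q)
    (hB : Barrier m H t fr U S T) :
    ∑ z : GW m H t, (if z ∈ U then 0 else om m k fr ex S T z) ≤
      (m + k) * U.ncard + (m + k - 1) := by
  -- the number of flagged half edges
  have hfx1 : ∀ v, fx t fr v + fx t ex v =
      ((Finset.univ : Finset (Fin (t v))).filter (fun i => fr ⟨v, i⟩ ∨ ex ⟨v, i⟩)).card := by
    intro v
    unfold fx
    rw [Finset.filter_or, Finset.card_union_of_disjoint]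
    rw [Finset.disjoint_filter]
    intro i _ h1 h2
    exact hfe _ h1 h2
  have hfx : ∑ v, (fx t fr v + fx t ex v) ≤ 1 := by
    have h1 : ∑ v, (fx t fr v + fx t ex v) = ∑ v, fx t (fun q => fr q ∨ ex q) v := by
      apply Finset.sum_congr rfl
      intro v _
      rw [hfx1]
      unfold fx
      congr!
    rw [h1, sum_fx, Finset.card_le_one]
    intro a ha b hb
    rw [Finset.mem_filter] at ha hb
    exact hone _ _ ha.2 hb.2
  have hfx2 : ∀ v, fx t fr v + fx t ex v ≤ 1 := by
    intro v
    refine le_trans ?_ hfx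
    exact Finset.single_le_sum (f := fun v => fx t fr v + fx t ex v) (fun _ _ => Nat.zero_le _)
      (Finset.mem_univ v)
  have hfx3 : ∀ v, fx t fr v + fx t ex v ≤ t v := by
    intro v
    rw [hfx1]
    refine (Finset.card_filter_le _ _).trans ?_
    rw [Finset.card_univ, Fintype.card_fin]
  have hU : U.ncard = ∑ z : GW m H t, (if z ∈ U then 1 else 0) := by
    rw [Set.ncard_eq_toFinset_card', Finset.sum_ite, Finset.sum_const_zero, add_zero,
      Finset.sum_const, smul_eq_mul, mul_one]
    congr 1
    ext z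
    simp
  rw [hU, Fintype.sum_sum_type, Fintype.sum_sum_type, Fintype.sum_sum_type, Fintype.sum_sum_type]
  -- darts, left
  have l1 : ∑ d : H.Dart, (if (Sum.inl (Sum.inl d) : GW m H t) ∈ U then 0 else
      om m k fr ex S T (Sum.inl (Sum.inl d))) ≤
      ∑ v, H.degree v * ((if v ∈ T then m else 0) + (if v ∈ S then k else 0)) := by
    have h1 : ∀ d : H.Dart, (if (Sum.inl (Sum.inl d) : GW m H t) ∈ U then 0 else
      om m k fr ex S T (Sum.inl (Sum.inl d))) ≤ (fun v => if v ∈ T then m else 0) d.fst +
        (fun v => if v ∈ S then k else 0) d.snd := by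
      intro d
      split_ifs with h
      · exact Nat.zero_le _
      · exact le_refl _
    refine (Finset.sum_le_sum (fun d _ => h1 d)).trans ?_
    have e1 := sum_darts_symm (H := H) (fun v => if v ∈ S then k else 0)
    have e2 := sum_darts (H := H) (fun v => if v ∈ S then k else 0)
    have e3 := sum_darts (H := H) (fun v => if v ∈ T then m else 0)
    rw [Finset.sum_add_distrib, e1, e2, e3, ← Finset.sum_add_distrib]
    apply Finset.sum_le_sum
    intro v _
    rw [mul_add]
  have l2 : ∑ q : (Σ v, Fin (t v)), (if (Sum.inl (Sum.inr q) : GW m H t) ∈ U then 0 else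
      om (H := H) m k fr ex S T (Sum.inl (Sum.inr q))) ≤
      ∑ v, (if v ∈ T then (m + k) * fx t ex v else 0) := by
    rw [Fintype.sum_sigma]
    apply Finset.sum_le_sum
    intro v _
    by_cases hv : v ∈ T
    · rw [if_pos hv]
      have h1 : ∀ i : Fin (t v), (if (Sum.inl (Sum.inr ⟨v, i⟩) : GW m H t) ∈ U then 0 else
          om (H := H) m k fr ex S T (Sum.inl (Sum.inr ⟨v, i⟩))) ≤
          (m + k) * (if ex ⟨v, i⟩ then 1 else 0) := by
        intro i
        by_cases he : ex ⟨v, i⟩
        · rw [if_pos he, mul_one]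
          split_ifs
          · exact Nat.zero_le _
          · simp only [om]
            rw [if_pos ⟨he, hv⟩]
        · rw [if_neg he, mul_zero]
          have h5 : om (H := H) m k fr ex S T (Sum.inl (Sum.inr ⟨v, i⟩)) = 0 := by
            simp only [om]
            exact if_neg (fun h => he h.1)
          rw [h5]
          simp
      refine (Finset.sum_le_sum (fun i _ => h1 i)).trans ?_
      rw [← Finset.mul_sum]
      unfold fx
      rw [Finset.card_filter]
    · rw [if_neg hv]
      apply le_of_eq
      apply Finset.sum_eq_zero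
      intro i _
      have h5 : om (H := H) m k fr ex S T (Sum.inl (Sum.inr ⟨v, i⟩)) = 0 := by
        simp only [om]
        exact if_neg (fun h => hv h.2)
      rw [h5]
      simp
  have l3 : ∑ c : V × Fin m, (if (Sum.inr c : GW m H t) ∈ U then 0 else
      om (H := H) m k fr ex S T (Sum.inr c)) ≤
      ∑ v, (if v ∈ T then 0 else if v ∈ S then m * (m + k) else (m + k - 1) * fx t fr v) := by
    rw [Fintype.sum_prod_type]
    apply Finset.sum_le_sum
    intro v _
    by_cases h : v ∈ T
    · rw [if_pos h]
      apply le_of_eq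
      apply Finset.sum_eq_zero
      intro j _
      rw [if_pos ((hB.core v j).2 h)]
    · rw [if_neg h]
      by_cases hS : v ∈ S
      · rw [if_pos hS]
        rw [Finset.sum_congr rfl (g := fun _ => m + k)]
        · rw [Finset.sum_const, Finset.card_univ, Fintype.card_fin, smul_eq_mul]
        · intro j _
          rw [if_neg (fun h' => h ((hB.core v j).1 h'))]
          simp [om, hS]
      · rw [if_neg hS]
        rw [Finset.sum_congr rfl (g := fun j : Fin m => if j = ⟨0, hm⟩ then
          (m + k - 1) * fx t fr v else 0)]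
        · rw [Finset.sum_ite_eq' Finset.univ, if_pos (Finset.mem_univ _)]
        · intro j _
          rw [if_neg (fun h' => h ((hB.core v j).1 h'))]
          simp only [om]
          rw [if_neg hS]
          by_cases hj : j = ⟨0, hm⟩
          · rw [if_pos hj, hj]
            simp
          · rw [if_neg hj, if_neg]
            intro h0
            exact hj (Fin.ext h0)
  -- right side
  have r1 : ∑ d : H.Dart, (if (Sum.inl (Sum.inl d) : GW m H t) ∈ U then 1 else 0) =
      ∑ v, H.degree v * (if v ∈ S then 1 else 0) := by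
    rw [← sum_darts]
    apply Finset.sum_congr rfl
    intro d _
    rw [hB.port d.fst (Sum.inl d) rfl]
  have r2 : ∑ v, (t v - fx t fr v) * (if v ∈ S then 1 else 0) ≤
      ∑ q : (Σ v, Fin (t v)), (if (Sum.inl (Sum.inr q) : GW m H t) ∈ U then 1 else 0) := by
    rw [Fintype.sum_sigma]
    apply Finset.sum_le_sum
    intro v _
    by_cases hv : v ∈ S
    · rw [if_pos hv, mul_one]
      have h1 : t v - fx t fr v = ((Finset.univ : Finset (Fin (t v))).filter
          (fun i => ¬ fr ⟨v, i⟩)).card := by
        have := Finset.card_filter_add_card_filter_not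
          (s := (Finset.univ : Finset (Fin (t v)))) (fun i => fr ⟨v, i⟩)
        rw [Finset.card_univ, Fintype.card_fin] at this
        unfold fx
        omega
      rw [h1, Finset.card_filter]
      apply Finset.sum_le_sum
      intro i _
      by_cases hi : fr ⟨v, i⟩
      · simp [hi]
      · have h2 := hB.port v (Sum.inr ⟨v, i⟩) ⟨rfl, hi⟩
        rw [if_pos hi, if_pos (h2.2 hv)]
    · rw [if_neg hv, mul_zero]
      exact Nat.zero_le _
  have r3 : ∑ c : V × Fin m, (if (Sum.inr c : GW m H t) ∈ U then 1 else 0) =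
      ∑ v, m * (if v ∈ T then 1 else 0) := by
    rw [Fintype.sum_prod_type]
    apply Finset.sum_congr rfl
    intro v _
    rw [Finset.sum_congr rfl (g := fun _ => (if v ∈ T then 1 else 0))]
    · rw [Finset.sum_const, Finset.card_univ, Fintype.card_fin, smul_eq_mul]
    · intro j _
      rw [hB.core v j]
  rw [r1, r3]
  have key : ∑ v, H.degree v * ((if v ∈ T then m else 0) + (if v ∈ S then k else 0)) +
      ∑ v, (if v ∈ T then (m + k) * fx t ex v else 0) +
      ∑ v, (if v ∈ T then 0 else if v ∈ S then m * (m + k) else (m + k - 1) * fx t fr v) ≤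
      (m + k) * (∑ v, H.degree v * (if v ∈ S then 1 else 0) +
        ∑ v, (t v - fx t fr v) * (if v ∈ S then 1 else 0) +
        ∑ v, m * (if v ∈ T then 1 else 0)) +
        (m + k - 1) * ∑ v, (fx t fr v + fx t ex v) := by
    rw [← Finset.sum_add_distrib, ← Finset.sum_add_distrib, ← Finset.sum_add_distrib,
      ← Finset.sum_add_distrib, Finset.mul_sum, Finset.mul_sum, ← Finset.sum_add_distrib]
    apply Finset.sum_le_sum
    intro v _
    exact vertex_ineq hm hk1 (hdeg v) (hfx2 v) (hfx3 v) (v ∈ S) (v ∈ T) (hB.disj v)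
  have h9 : (m + k - 1) * ∑ v, (fx t fr v + fx t ex v) ≤ m + k - 1 := by
    have := Nat.mul_le_mul_left (m + k - 1) hfx
    omega
  have h10 : (m + k) * (∑ v, H.degree v * (if v ∈ S then 1 else 0) +
        ∑ v, (t v - fx t fr v) * (if v ∈ S then 1 else 0) +
        ∑ v, m * (if v ∈ T then 1 else 0)) ≤
      (m + k) * (∑ v, H.degree v * (if v ∈ S then 1 else 0) +
        ∑ q : (Σ v, Fin (t v)), (if (Sum.inl (Sum.inr q) : GW m H t) ∈ U then 1 else 0) +
        ∑ v, m * (if v ∈ T then 1 else 0)) := by
    apply Nat.mul_le_mul_left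
    omega
  omega

theorem exists_pm [Finite V] (hm : 1 ≤ m) (hk : Even k) (hk1 : 1 ≤ k) (hkm : k ≤ 2 * m)
    (hdeg : ∀ v, (H.neighborSet v).ncard + t v = m + k)
    (hsec : ∀ D : Set V, (∀ v ∈ D, t v ≤ 1) → (∀ v ∈ D, ∀ i, fr ⟨v, i⟩ ∨ ex ⟨v, i⟩) →
      ∀ d : H.Dart, d.fst ∈ D → d.snd ∉ D → ∃ e : H.Dart, e.fst ∈ D ∧ e.snd ∉ D ∧ e ≠ d)
    (hone : ∀ q r, (fr q ∨ ex q) → (fr r ∨ ex r) → q = r) (hfe : ∀ q, fr q → ¬ ex q)
    (hfx : ∀ q, fr q → 2 ≤ t q.1 ∨ ∃ w, w ≠ q.1 ∧ H.Reachable q.1 w ∧ 1 ≤ t w) :
    ∃ M : Subgraph (gad m H t fr ex), M.IsPerfectMatching := by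
  classical
  have := Fintype.ofFinite V
  have hdeg' : ∀ v, H.degree v + t v = m + k := by
    intro v
    rw [← hdeg v, ← H.card_neighborSet_eq_degree v, Set.ncard_eq_toFinset_card', Set.toFinset_card]
  by_contra hno
  have hev : Even (Nat.card (GW m H t)) := by
    have h1 : Nat.card (GW m H t) = ∑ v : V, (m + k + m) := by
      rw [Nat.card_eq_fintype_card, Fintype.card_sum, Fintype.card_sum, Fintype.card_prod,
        Fintype.card_fin, Fintype.card_sigma]
      have h2 : Fintype.card H.Dart = ∑ v, H.degree v := by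
        have := sum_darts (H := H) (fun _ => 1)
        simpa using this
      rw [h2, ← Finset.sum_add_distrib]
      have h3 : Fintype.card V * m = ∑ v : V, m := by simp
      rw [h3, ← Finset.sum_add_distrib]
      apply Finset.sum_congr rfl
      intro v _
      have := hdeg' v
      simp only [Fintype.card_fin]
      omega
    rw [h1]
    apply Finset.even_sum
    intro v _
    obtain ⟨a, rfl⟩ := hk
    exact ⟨m + a, by ring⟩
  obtain ⟨U, S, T, hU, hB⟩ := exists_barrier hm hev hno
  have htot := total_le hm hk1 hdeg' hone hfe hB (ex := ex)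
  let Zf := (Set.toFinite {Z | OddComp (gad m H t fr ex) U Z}).toFinset
  have hZf : ∀ Z, Z ∈ Zf ↔ OddComp (gad m H t fr ex) U Z := fun Z => Set.Finite.mem_toFinset _
  have hcard : {Z | OddComp (gad m H t fr ex) U Z}.ncard = Zf.card :=
    Set.ncard_eq_toFinset_card _ _
  let P : Set (GW m H t) → Prop := fun Z => ∃ q, ¬ ex q ∧ (Sum.inl (Sum.inr q) : GW m H t) ∈ Z
  have hP1 : (Zf.filter P).card ≤ 1 := by
    rw [Finset.card_le_one]
    intro A hA B hB'
    rw [Finset.mem_filter, hZf] at hA hB'
    obtain ⟨hA1, q, hqx, hq⟩ := hA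
    obtain ⟨hB1, r, hrx, hr⟩ := hB'
    by_cases hqr : q = r
    · subst hqr
      exact hA1.eq_of_mem hB1 hq hr
    · refine hA1.eq_of_mem hB1 (hA1.closed hq (hB1.notMem hr) ?_) hr
      rw [gad_qq]; exact ⟨hqr, hqx, hrx⟩
  have hsplit := Finset.card_filter_add_card_filter_not (s := Zf) P
  have hlow : (m + k) * (Zf.filter (fun Z => ¬ P Z)).card ≤
      ∑ Z ∈ Zf.filter (fun Z => ¬ P Z), ∑ z with z ∈ Z, om m k fr ex S T z := by
    rw [mul_comm, ← smul_eq_mul, ← Finset.sum_const]
    apply Finset.sum_le_sum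
    intro Z hZ
    rw [Finset.mem_filter, hZf] at hZ
    refine weight_ge hm hk hk1 hkm hdeg' hsec hone hfe hfx hB hZ.1 ?_
    intro q hqx hq
    exact hZ.2 ⟨q, hqx, hq⟩
  have hup : ∑ Z ∈ Zf.filter (fun Z => ¬ P Z), ∑ z with z ∈ Z, om m k fr ex S T z ≤
      ∑ z : GW m H t, (if z ∈ U then 0 else om m k fr ex S T z) := by
    have h1 : ∀ Z : Set (GW m H t), ∑ z with z ∈ Z, om m k fr ex S T z =
        ∑ z : GW m H t, (if z ∈ Z then om m k fr ex S T z else 0) := by
      intro Z
      rw [Finset.sum_filter]
    rw [Finset.sum_congr rfl (fun Z _ => h1 Z), Finset.sum_comm]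
    apply Finset.sum_le_sum
    intro z _
    by_cases hz : ∃ Z ∈ Zf.filter (fun Z => ¬ P Z), z ∈ Z
    · obtain ⟨Z, hZ, hzZ⟩ := hz
      have hZo := (hZf Z).1 (Finset.mem_filter.1 hZ).1
      rw [if_neg (hZo.notMem hzZ)]
      rw [Finset.sum_eq_single Z]
      · rw [if_pos hzZ]
      · intro Z' hZ' hne
        have hZo' := (hZf Z').1 (Finset.mem_filter.1 hZ').1
        rw [if_neg]
        intro h
        exact hne (hZo'.eq_of_mem hZo h hzZ)
      · intro h
        exact absurd hZ h
    · push Not at hz
      rw [Finset.sum_eq_zero]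
      · exact Nat.zero_le _
      · intro Z hZ
        rw [if_neg (hz Z hZ)]
  have hfin : (m + k) * (Zf.filter (fun Z => ¬ P Z)).card ≤ (m + k) * U.ncard + (m + k - 1) :=
    hlow.trans (hup.trans htot)
  have hle : (Zf.filter (fun Z => ¬ P Z)).card ≤ U.ncard := by
    by_contra hcon
    push Not at hcon
    have h1 : (m + k) * (U.ncard + 1) ≤ (m + k) * (Zf.filter (fun Z => ¬ P Z)).card :=
      Nat.mul_le_mul_left _ hcon
    rw [mul_add, mul_one] at h1
    omega
  omega

end Pool.Agent.H567R3.ZG
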